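import Pool.Agent.Helper944_LP.Defs

/-!
# Longest paths in tournaments: completeness of the dynamic program
-/

set_option autoImplicit false

namespace Pool.Agent.Helper944_LP

/-! ### tournaments -/

theorem C_asymm {M : Mat} (hM : IsTour M) {u v : ℕ} (hu : u < M.length) (hv : v < M.length)
    (h : arc M u v = true) : ¬ arc M v u = true := by
  rw [((hM.2 u hu v hv).mp h).2]
  exact Bool.false_ne_true

theorem C_ne {M : Mat} (hM : IsTour M) {u v : ℕ} (hu : u < M.length) (hv : v < M.length)
    (h : arc M u v = true) : u ≠ v := ((hM.2 u hu v hv).mp h).1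

theorem C_tot {M : Mat} (hM : IsTour M) {u v : ℕ} (hu : u < M.length) (hv : v < M.length)
    (hne : u ≠ v) (h : ¬ arc M u v = true) : arc M v u = true :=
  (hM.2 v hv u hu).mpr ⟨hne.symm, by simpa using h⟩

/-! ### inserting a path -/

theorem C_ins {M : Mat} {x y : ℕ} {P : List ℕ} (hP : IsPath M x y P)
    (hmax : ∀ l, IsPath M x y l → l.length ≤ P.length) (l : List ℕ) (hl : l.Nodup)
    (hlt : ∀ v ∈ l, v < M.length) (hd : ∀ v ∈ l, v ∉ P)
    (hc : l.IsChain (fun u v => arc M u v = true)) (u v : ℕ) (hu : l.head? = some u)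
    (hv : l.getLast? = some v) (i : ℕ) (hi : i + 1 < P.length)
    (h1 : arc M (P.getD i 0) u = true) (h2 : arc M v (P.getD (i + 1) 0) = true) : False := by
  have hne : l ≠ [] := by
    rintro rfl
    simp at hu
  rw [List.getD_eq_getElem _ _ (by omega)] at h1
  rw [List.getD_eq_getElem _ _ hi] at h2
  have e1 : (P.take (i + 1)).getLast? = some P[i] := by
    rw [List.getLast?_take, if_neg (by omega), Nat.add_sub_cancel,
      List.getElem?_eq_getElem (by omega)]
    rfl
  have e2 : (P.drop (i + 1)).head? = some P[i + 1] := by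
    rw [List.head?_drop, List.getElem?_eq_getElem hi]
  have hQ : IsPath M x y (P.take (i + 1) ++ (l ++ P.drop (i + 1))) := by
    refine ⟨?_, ?_, ?_, ?_, ?_⟩
    · rw [List.nodup_append, List.nodup_append]
      refine ⟨hP.nodup.sublist (List.take_sublist _ _),
        ⟨hl, hP.nodup.sublist (List.drop_sublist _ _), ?_⟩, ?_⟩
      · intro a ha b hb hab
        subst hab
        exact hd a ha (List.mem_of_mem_drop hb)
      · intro a ha b hb hab
        subst hab
        rcases List.mem_append.mp hb with h | h
        · exact hd a h (List.mem_of_mem_take ha)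
        · have h3 := hP.nodup
          rw [← List.take_append_drop (i + 1) P, List.nodup_append] at h3
          exact h3.2.2 a ha a h rfl
    · intro w hw
      rcases List.mem_append.mp hw with h | h
      · exact hP.lt w (List.mem_of_mem_take h)
      · rcases List.mem_append.mp h with h | h
        · exact hlt w h
        · exact hP.lt w (List.mem_of_mem_drop h)
    · rw [List.isChain_append, List.isChain_append]
      refine ⟨hP.chain.take _, ⟨hc, hP.chain.drop _, ?_⟩, ?_⟩
      · intro a ha b hb
        rw [hv] at ha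
        rw [e2] at hb
        cases ha
        cases hb
        exact h2
      · intro a ha b hb
        rw [e1] at ha
        rw [List.head?_append, hu] at hb
        cases ha
        cases hb
        exact h1
    · rw [List.head?_append, List.head?_take, if_neg (by omega), hP.head]
      rfl
    · rw [List.getLast?_append, List.getLast?_append, List.getLast?_drop, if_neg (by omega),
        hP.last]
      rfl
  have h3 := hmax _ hQ
  rw [List.length_append, List.length_append, List.length_take, List.length_drop] at h3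
  have h4 : 0 < l.length := List.length_pos_iff.mpr hne
  omega

/-- the facts on the path which are used -/
structure CS (M : Mat) (m : ℕ) (p : ℕ → ℕ) (x : ℕ) : Prop where
  inj : ∀ i j, i < m → j < m → p i = p j → i = j
  lt : ∀ i, i < m → p i < M.length
  ch : ∀ i, i + 1 < m → arc M (p i) (p (i + 1)) = true
  hd : p 0 = x
  pos : 0 < m
  ins1 : ∀ v, v < M.length → (∀ i, i < m → p i ≠ v) → ∀ i, i + 1 < m →
    arc M (p i) v = true → arc M v (p (i + 1)) = true → False
  ins2 : ∀ u v, u < M.length → (∀ i, i < m → p i ≠ u) → v < M.length →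
    (∀ i, i < m → p i ≠ v) → arc M u v = true → ∀ i, i + 1 < m →
    arc M (p i) u = true → arc M v (p (i + 1)) = true → False
  ins3 : ∀ u z v, u < M.length → (∀ i, i < m → p i ≠ u) → z < M.length →
    (∀ i, i < m → p i ≠ z) → v < M.length →
    (∀ i, i < m → p i ≠ v) → arc M u z = true → arc M z v = true → u ≠ v → ∀ i, i + 1 < m →
    arc M (p i) u = true → arc M v (p (i + 1)) = true → False

theorem CS_of {M : Mat} {x y : ℕ} {P : List ℕ} (hM : IsTour M) (hP : IsPath M x y P)
    (hmax : ∀ l, IsPath M x y l → l.length ≤ P.length) :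
    CS M P.length (fun i => P.getD i 0) x := by
  have hmem : ∀ v, (∀ i, i < P.length → P.getD i 0 ≠ v) → v ∉ P := by
    intro v h hv
    obtain ⟨i, hi, rfl⟩ := List.getElem_of_mem hv
    exact h i hi (List.getD_eq_getElem _ _ hi)
  have hpos : 0 < P.length := by
    rcases P with _ | ⟨a, P⟩
    · have := hP.head
      simp at this
    · simp
  refine ⟨?_, ?_, ?_, ?_, hpos, ?_, ?_, ?_⟩
  · intro i j hi hj h
    simp only [List.getD_eq_getElem _ _ hi, List.getD_eq_getElem _ _ hj] at h
    exact (List.Nodup.getElem_inj_iff hP.nodup).mp h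
  · intro i hi
    simp only [List.getD_eq_getElem _ _ hi]
    exact hP.lt _ (List.getElem_mem hi)
  · intro i hi
    simp only [List.getD_eq_getElem _ _ hi, List.getD_eq_getElem _ _ (show i < P.length by omega)]
    exact List.isChain_iff_getElem.mp hP.chain i hi
  · have := hP.head
    simp only [List.getD_eq_getElem _ _ hpos]
    rw [List.head?_eq_getElem?, List.getElem?_eq_getElem hpos] at this
    exact Option.some.inj this
  · intro v hv hvP i hi h1 h2
    exact C_ins hP hmax [v] (by simp) (by simpa using hv) (by simpa using hmem v hvP) (by simp)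
      v v rfl rfl i hi h1 h2
  · intro u v hu huP hv hvP huv i hi h1 h2
    have hne := C_ne hM hu hv huv
    refine C_ins hP hmax [u, v] (by simp [hne]) ?_ ?_ (by simp [huv]) u v rfl rfl i hi h1 h2
    · intro w hw
      simp only [List.mem_cons, List.not_mem_nil, or_false] at hw
      rcases hw with rfl | rfl
      · exact hu
      · exact hv
    · intro w hw
      simp only [List.mem_cons, List.not_mem_nil, or_false] at hw
      rcases hw with rfl | rfl
      · exact hmem _ huP
      · exact hmem _ hvP
  · intro u z v hu huP hz hzP hv hvP huz hzv huv i hi h1 h2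
    have hne1 := C_ne hM hu hz huz
    have hne2 := C_ne hM hz hv hzv
    refine C_ins hP hmax [u, z, v] (by simp [hne1, hne2, huv]) ?_ ?_ (by simp [huz, hzv]) u v
      rfl rfl i hi h1 h2
    · intro w hw
      simp only [List.mem_cons, List.not_mem_nil, or_false] at hw
      rcases hw with rfl | rfl | rfl
      · exact hu
      · exact hz
      · exact hv
    · intro w hw
      simp only [List.mem_cons, List.not_mem_nil, or_false] at hw
      rcases hw with rfl | rfl | rfl
      · exact hmem _ huP
      · exact hmem _ hzP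
      · exact hmem _ hvP

/-! ### thresholds -/

/-- `v` is a vertex outside of the path -/
def CR (M : Mat) (m : ℕ) (p : ℕ → ℕ) (v : ℕ) : Prop := v < M.length ∧ ∀ i, i < m → p i ≠ v

/-- the properties of the thresholds -/
structure CT (M : Mat) (m : ℕ) (p : ℕ → ℕ) (t : ℕ → ℕ) : Prop where
  le : ∀ v, t v ≤ m
  iff : ∀ v, CR M m p v → ∀ i, i < m → (arc M v (p i) = true ↔ i < t v)
  top : t M.length = m
  bot : t (M.length + 1) = 0

theorem CT_exists {M : Mat} {m : ℕ} {p : ℕ → ℕ} {x : ℕ} (hM : IsTour M) (hS : CS M m p x) :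
    ∃ t : ℕ → ℕ, CT M m p t := by
  have h1 : ∀ v, ∃ T, T ≤ m ∧ (CR M m p v → ∀ i, i < m → (arc M v (p i) = true ↔ i < T)) := by
    intro v
    by_cases hv : CR M m p v
    · have hex : ∃ T, m ≤ T ∨ ¬ arc M v (p T) = true := ⟨m, Or.inl le_rfl⟩
      classical
      have hspec := Nat.find_spec hex
      have hmin : ∀ j, j < Nat.find hex → j < m ∧ arc M v (p j) = true := by
        intro j hj
        have := Nat.find_min hex hj
        push Not at this
        exact this
      have hle : Nat.find hex ≤ m := Nat.find_min' hex (Or.inl le_rfl)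
      refine ⟨Nat.find hex, hle, fun _ i hi => ⟨fun h => ?_, fun h => (hmin i h).2⟩⟩
      by_contra hcon
      have hT : ¬ arc M v (p (Nat.find hex)) = true := by
        rcases hspec with h2 | h2
        · omega
        · exact h2
      -- going down
      have hdown : ∀ k, ∀ j, j + k < m → arc M v (p (j + k)) = true → arc M v (p j) = true := by
        intro k
        induction k with
        | zero => intro j _ h; exact h
        | succ k ih =>
          intro j hj h
          apply ih j (by omega)
          by_contra h3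
          have h4 : arc M (p (j + k)) v = true :=
            C_tot hM hv.1 (hS.lt _ (by omega)) (fun h5 => hv.2 _ (by omega) h5.symm) h3
          exact hS.ins1 v hv.1 hv.2 (j + k) (by omega) h4 h
      apply hT
      apply hdown (i - Nat.find hex) (Nat.find hex) (by omega)
      rw [show Nat.find hex + (i - Nat.find hex) = i by omega]
      exact h
    · exact ⟨0, Nat.zero_le _, fun h => absurd h hv⟩
  choose t0 ht0 ht1 using h1
  refine ⟨fun v => if v = M.length then m else if v = M.length + 1 then 0 else t0 v, ?_, ?_, ?_,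
    ?_⟩
  · intro v
    show (if v = M.length then m else if v = M.length + 1 then 0 else t0 v) ≤ m
    split_ifs
    · exact le_rfl
    · exact Nat.zero_le _
    · exact ht0 v
  · intro v hv i hi
    have h2 := hv.1
    show arc M v (p i) = true ↔ i < if v = M.length then m else if v = M.length + 1 then 0
      else t0 v
    rw [if_neg (by omega), if_neg (by omega)]
    exact ht1 v hv i hi
  · simp
  · simp

section main
variable {M : Mat} {m : ℕ} {p : ℕ → ℕ} {x : ℕ} {t : ℕ → ℕ}

theorem CT_two (hM : IsTour M) (hS : CS M m p x) (hT : CT M m p t) {u v : ℕ}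
    (hu : CR M m p u) (hv : CR M m p v) (h : arc M u v = true) : t v ≤ t u + 1 := by
  by_contra hc
  have h1 := hT.le v
  have h2 : ¬ arc M u (p (t u)) = true := by
    rw [hT.iff u hu _ (by omega)]
    omega
  have h3 : arc M (p (t u)) u = true :=
    C_tot hM hu.1 (hS.lt _ (by omega)) (fun h5 => hu.2 _ (by omega) h5.symm) h2
  have h4 : arc M v (p (t u + 1)) = true := (hT.iff v hv _ (by omega)).mpr (by omega)
  exact hS.ins2 u v hu.1 hu.2 hv.1 hv.2 h (t u) (by omega) h3 h4

theorem CT_three (hM : IsTour M) (hS : CS M m p x) (hT : CT M m p t) {u z v : ℕ}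
    (hu : CR M m p u) (hz : CR M m p z) (hv : CR M m p v) (h : arc M u z = true)
    (h' : arc M z v = true) : t v ≤ t u + 1 := by
  by_cases huv : u = v
  · subst huv
    omega
  by_contra hc
  have h1 := hT.le v
  have h2 : ¬ arc M u (p (t u)) = true := by
    rw [hT.iff u hu _ (by omega)]
    omega
  have h3 : arc M (p (t u)) u = true :=
    C_tot hM hu.1 (hS.lt _ (by omega)) (fun h5 => hu.2 _ (by omega) h5.symm) h2
  have h4 : arc M v (p (t u + 1)) = true := (hT.iff v hv _ (by omega)).mpr (by omega)
  exact hS.ins3 u z v hu.1 hu.2 hz.1 hz.2 hv.1 hv.2 h h' huv (t u) (by omega) h3 h4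

/-! ### the order -/

/-- lower ends -/
def CL (M : Mat) (m : ℕ) (p : ℕ → ℕ) (a : ℕ) : Prop := CR M m p a ∨ a = M.length + 1
/-- upper ends -/
def CU (M : Mat) (m : ℕ) (p : ℕ → ℕ) (b : ℕ) : Prop := CR M m p b ∨ b = M.length

/-- the order -/
def CO (M : Mat) (a b : ℕ) : Prop := ∀ v ∈ low M a, v ∈ up M b

theorem C_mem_up {b z : ℕ} (hb : b < M.length) :
    z ∈ up M b ↔ z < M.length ∧ arc M b z = true := by
  unfold up vs
  rw [if_pos hb, List.mem_filter, List.mem_range]

theorem C_mem_up_top {z : ℕ} : z ∈ up M M.length ↔ z < M.length := by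
  unfold up vs
  rw [if_neg (by omega), if_pos rfl, List.mem_range]

theorem C_mem_low {a z : ℕ} (ha : a < M.length) :
    z ∈ low M a ↔ z = a ∨ (z < M.length ∧ arc M a z = true) := by
  unfold low
  rw [if_pos ha, List.mem_cons, C_mem_up ha]

theorem C_low_bot : low M (M.length + 1) = [] := by
  unfold low
  rw [if_neg (by omega), if_neg (by omega)]

theorem CO_le (hS : CS M m p x) (hT : CT M m p t) {a b : ℕ}
    (ha : CL M m p a) (hb : CU M m p b) (h : CO M a b) : t a ≤ t b := by
  rcases ha with ha | rfl
  · rcases hb with hb | rfl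
    · by_contra hc
      have h1 := hT.le a
      have h2 : arc M a (p (t b)) = true := (hT.iff a ha _ (by omega)).mpr (by omega)
      have h3 := h (p (t b)) ((C_mem_low ha.1).mpr (Or.inr ⟨hS.lt _ (by omega), h2⟩))
      have h4 := ((C_mem_up hb.1).mp h3).2
      rw [hT.iff b hb _ (by omega)] at h4
      omega
    · rw [hT.top]
      exact hT.le a
  · rw [hT.bot]
    exact Nat.zero_le _

theorem CO_trans {a v b : ℕ} (hv : v < M.length) (h1 : CO M a v) (h2 : CO M v b) : CO M a b := by
  intro z hz
  apply h2
  have h3 := (C_mem_up hv).mp (h1 z hz)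
  exact (C_mem_low hv).mpr (Or.inr h3)

theorem CO_irr (hM : IsTour M) {v : ℕ} (hv : v < M.length) : ¬ CO M v v := by
  intro h
  have h1 := h v ((C_mem_low hv).mpr (Or.inl rfl))
  have h2 := ((C_mem_up hv).mp h1).2
  exact C_ne hM hv hv h2 rfl

/-- the gap -/
theorem C_mem_gap {a b z : ℕ} : z ∈ gap M a b ↔ z ∈ up M b ∧ z ∉ low M a := by
  unfold gap
  rw [List.mem_filter, decide_eq_true_eq]

theorem C_gap_path (hS : CS M m p x) (hT : CT M m p t) {a b : ℕ}
    (ha : CL M m p a) (hb : CU M m p b) (i : ℕ) (hi : i < m) :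
    p i ∈ gap M a b ↔ t a ≤ i ∧ i < t b := by
  rw [C_mem_gap]
  have h1 : p i ∈ up M b ↔ i < t b := by
    rcases hb with hb | rfl
    · rw [C_mem_up hb.1, hT.iff b hb i hi]
      exact ⟨fun h => h.2, fun h => ⟨hS.lt i hi, h⟩⟩
    · rw [C_mem_up_top, hT.top]
      exact ⟨fun _ => hi, fun _ => hS.lt i hi⟩
  have h2 : p i ∉ low M a ↔ t a ≤ i := by
    rcases ha with ha | rfl
    · rw [C_mem_low ha.1, hT.iff a ha i hi, not_or]
      constructor
      · rintro ⟨_, h⟩
        by_contra hc
        exact h ⟨hS.lt i hi, by omega⟩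
      · intro h
        exact ⟨ha.2 i hi, fun h3 => by omega⟩
    · rw [C_low_bot, hT.bot]
      simp
  rw [h1, h2]
  exact and_comm

theorem C_gap_lt {a b z : ℕ} (hb : CU M m p b) (hz : z ∈ gap M a b) : z < M.length := by
  have h := (C_mem_gap.mp hz).1
  rcases hb with hb | rfl
  · exact ((C_mem_up hb.1).mp h).1
  · exact C_mem_up_top.mp h

theorem C_gap_nodup (a b : ℕ) : (gap M a b).Nodup := by
  unfold gap
  apply List.Nodup.filter
  unfold up vs
  split_ifs
  · exact List.nodup_range.filter _
  · exact List.nodup_range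
  · exact List.nodup_nil

/-- Claim A -/
theorem C_claimA (hM : IsTour M) (hS : CS M m p x) (hT : CT M m p t) {a b : ℕ}
    (ha : CL M m p a) (hb : CU M m p b)
    (hcov : ∀ v, CR M m p v → ¬ (CO M a v ∧ CO M v b)) (v : ℕ) (hv : CR M m p v)
    (hvZ : v ∈ gap M a b) : t v ≤ t a + 1 ∨ t b ≤ t v + 1 := by
  by_contra hcon
  push Not at hcon
  obtain ⟨hc1, hc2⟩ := hcon
  obtain ⟨hvb, hva⟩ := C_mem_gap.mp hvZ
  apply hcov v hv
  constructor
  · intro z hz
    rcases ha with ha | rfl
    · rw [C_mem_low ha.1, not_or] at hva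
      have hav : arc M v a = true :=
        C_tot hM ha.1 hv.1 (fun h => hva.1 h.symm) (fun h => hva.2 ⟨hv.1, h⟩)
      rw [C_mem_up hv.1]
      rcases (C_mem_low ha.1).mp hz with rfl | ⟨hzn, haz⟩
      · exact ⟨ha.1, hav⟩
      · refine ⟨hzn, ?_⟩
        by_cases hzR : ∀ i, i < m → p i ≠ z
        · by_contra hvz
          have hne : v ≠ z := fun h => hva.2 ⟨hv.1, h ▸ haz⟩
          have hzv := C_tot hM hv.1 hzn hne hvz
          have := CT_three hM hS hT ha ⟨hzn, hzR⟩ hv haz hzv
          omega
        · push Not at hzR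
          obtain ⟨i, hi, rfl⟩ := hzR
          rw [hT.iff a ha i hi] at haz
          rw [hT.iff v hv i hi]
          omega
    · rw [C_low_bot] at hz
      simp at hz
  · intro z hz
    have hzn : z < M.length := by
      rcases (C_mem_low hv.1).mp hz with rfl | ⟨h, _⟩
      · exact hv.1
      · exact h
    rcases hb with hb | rfl
    · rw [C_mem_up hb.1] at hvb ⊢
      refine ⟨hzn, ?_⟩
      rcases (C_mem_low hv.1).mp hz with rfl | ⟨_, hvz⟩
      · exact hvb.2
      · by_cases hzR : ∀ i, i < m → p i ≠ z
        · by_contra hbz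
          have hne : b ≠ z := by
            rintro rfl
            exact C_asymm hM hb.1 hv.1 hvb.2 hvz
          have hzb := C_tot hM hb.1 hzn hne hbz
          have := CT_three hM hS hT hv ⟨hzn, hzR⟩ hb hvz hzb
          omega
        · push Not at hzR
          obtain ⟨i, hi, rfl⟩ := hzR
          rw [hT.iff v hv i hi] at hvz
          rw [hT.iff b hb i hi]
          omega
    · rw [C_mem_up_top]
      exact hzn

/-! ### segments -/

/-- a segment of the path -/
def Cseg (p : ℕ → ℕ) (a s : ℕ) : List ℕ := (List.range' a s).map p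

theorem C_mem_seg {a s z : ℕ} : z ∈ Cseg p a s ↔ ∃ i, a ≤ i ∧ i < a + s ∧ p i = z := by
  unfold Cseg
  rw [List.mem_map]
  constructor
  · rintro ⟨i, hi, rfl⟩
    rw [List.mem_range'_1] at hi
    exact ⟨i, hi.1, hi.2, rfl⟩
  · rintro ⟨i, h1, h2, rfl⟩
    exact ⟨i, List.mem_range'_1.mpr ⟨h1, h2⟩, rfl⟩

theorem C_seg_nodup (hS : CS M m p x) {a s : ℕ} (h : a + s ≤ m) : (Cseg p a s).Nodup := by
  unfold Cseg
  refine List.Nodup.map_on ?_ List.nodup_range'
  intro i hi j hj hij
  rw [List.mem_range'_1] at hi hj
  exact hS.inj i j (by omega) (by omega) hij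

theorem C_seg_chain (hS : CS M m p x) {a s : ℕ} (h : a + s ≤ m) :
    (Cseg p a s).IsChain (fun u v => arc M u v = true) := by
  unfold Cseg
  rw [List.isChain_map, List.isChain_iff_getElem]
  intro i hi
  rw [List.length_range'] at hi
  rw [List.getElem_range', List.getElem_range']
  have := hS.ch (a + 1 * i) (by omega)
  rw [show a + 1 * (i + 1) = a + 1 * i + 1 by ring]
  exact this

theorem C_seg_eq (a k : ℕ) : Cseg p a (k + 2) = p a :: (Cseg p (a + 1) k ++ [p (a + k + 1)]) := by
  unfold Cseg
  rw [List.range'_succ, List.map_cons, List.range'_concat, List.map_append]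
  simp only [List.map_cons, List.map_nil]
  rw [show a + 1 + 1 * k = a + k + 1 by ring]

theorem C_H {H : Mat × ℕ × ℕ → Bool} (hH : Correct H M) (hS : CS M m p x) (a k : ℕ)
    (h : a + k + 2 ≤ m) (J : List ℕ) (hJ : J.Perm (Cseg p (a + 1) k)) :
    H (sub M (p a :: p (a + k + 1) :: J), 0, 1) = true := by
  have h1 : (Cseg p a (k + 2)).Perm (p a :: p (a + k + 1) :: J) := by
    rw [C_seg_eq]
    refine List.Perm.cons _ ?_
    refine (List.perm_append_comm).trans ?_
    exact List.Perm.cons _ hJ.symm
  have h2 : (p a :: p (a + k + 1) :: J).Nodup :=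
    h1.nodup_iff.mp (C_seg_nodup hS (by omega))
  refine (hH _ _ J h2 ?_).mpr ⟨Cseg p a (k + 2), h1, C_seg_chain hS (by omega), ?_, ?_⟩
  · intro v hv
    obtain ⟨i, _, h4, rfl⟩ := C_mem_seg.mp (h1.mem_iff.mpr hv)
    exact hS.lt i (by omega)
  · rw [C_seg_eq]
    rfl
  · rw [C_seg_eq, ← List.cons_append, List.getLast?_append]
    rfl

theorem C_mem_del2 {Z : List ℕ} {p q z : ℕ} : z ∈ del2 Z p q ↔ z ∈ Z ∧ z ≠ p ∧ z ≠ q := by
  unfold del2
  rw [List.mem_filter, Bool.and_eq_true, decide_eq_true_eq, decide_eq_true_eq]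

theorem C_deg (U : List ℕ) (hU : U.Nodup) (v : ℕ) :
    deg M U v = (U.toFinset.filter (fun z => arc M v z = true)).card := by
  unfold deg
  rw [← List.toFinset_card_of_nodup (hU.filter _), List.toFinset_filter]

/-- the main case of the cover step -/
theorem C_band (hM : IsTour M) (hS : CS M m p x) (hT : CT M m p t) {a b : ℕ}
    (ha : CL M m p a) (hb : CU M m p b)
    (hcov : ∀ v, CR M m p v → ¬ (CO M a v ∧ CO M v b)) (hs : t a + 4 ≤ t b) :
    ∃ A B : ℕ, A ≤ M.length ∧ B ≤ M.length ∧
      (band M (del2 (gap M a b) (p (t a)) (p (t b - 1))) A B).Perm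
        (Cseg p (t a + 1) (t b - t a - 2)) := by
  classical
  obtain ⟨U, hU⟩ : ∃ U, U = del2 (gap M a b) (p (t a)) (p (t b - 1)) := ⟨_, rfl⟩
  rw [← hU]
  have htb := hT.le b
  have hUn : U.Nodup := by
    rw [hU]
    unfold del2
    exact (C_gap_nodup a b).filter _
  have hUlt : ∀ z ∈ U, z < M.length := by
    intro z hz
    rw [hU, C_mem_del2] at hz
    exact C_gap_lt hb hz.1
  have hUp : ∀ i, i < m → (p i ∈ U ↔ t a < i ∧ i + 1 < t b) := by
    intro i hi
    rw [hU, C_mem_del2, C_gap_path hS hT ha hb i hi]
    constructor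
    · rintro ⟨⟨h1, h2⟩, h3, h4⟩
      constructor
      · rcases h1.eq_or_lt with h5 | h5
        · exact absurd (by rw [← h5]) h3
        · exact h5
      · by_contra h5
        exact h4 (by rw [show i = t b - 1 by omega])
    · rintro ⟨h1, h2⟩
      refine ⟨⟨h1.le, by omega⟩, ?_, ?_⟩
      · intro h3
        have := hS.inj _ _ hi (by omega) h3
        omega
      · intro h3
        have := hS.inj _ _ hi (by omega) h3
        omega
  have hUR : ∀ z ∈ U, CR M m p z → t z ≤ t a + 1 ∨ t b ≤ t z + 1 := by
    intro z hz hzR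
    rw [hU, C_mem_del2] at hz
    exact C_claimA hM hS hT ha hb hcov z hzR hz.1
  have hUc : ∀ z ∈ U, CR M m p z ∨ ∃ i, i < m ∧ p i = z := by
    intro z hz
    by_cases h : ∀ i, i < m → p i ≠ z
    · exact Or.inl ⟨hUlt z hz, h⟩
    · push Not at h
      exact Or.inr h
  obtain ⟨UF, hUF⟩ : ∃ UF, UF = U.toFinset := ⟨_, rfl⟩
  have hmU : ∀ z, z ∈ UF ↔ z ∈ U := fun z => by rw [hUF, List.mem_toFinset]
  obtain ⟨Lo, hLo⟩ : ∃ Lo, Lo = UF.filter (fun z => CR M m p z ∧ t z ≤ t a + 1) := ⟨_, rfl⟩
  obtain ⟨I, hI⟩ : ∃ I, I = UF.filter (fun z => ∃ i, i < m ∧ p i = z) := ⟨_, rfl⟩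
  have hmLo : ∀ z, z ∈ Lo ↔ z ∈ U ∧ CR M m p z ∧ t z ≤ t a + 1 := fun z => by
    rw [hLo, Finset.mem_filter, hmU]
  have hmI : ∀ z, z ∈ I ↔ z ∈ U ∧ ∃ i, i < m ∧ p i = z := fun z => by
    rw [hI, Finset.mem_filter, hmU]
  have hdisj : Disjoint Lo I := by
    rw [Finset.disjoint_left]
    intro z h1 h2
    obtain ⟨i, hi, h3⟩ := ((hmI z).mp h2).2
    exact ((hmLo z).mp h1).2.1.2 i hi h3
  have hcard : (Lo ∪ I).card = Lo.card + I.card := Finset.card_union_of_disjoint hdisj
  have hdeg : ∀ v, deg M U v = (UF.filter (fun z => arc M v z = true)).card := fun v => by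
    rw [hUF]
    exact C_deg U hUn v
  have hcn : (Lo ∪ I).card ≤ M.length := by
    rw [← Finset.card_range M.length]
    apply Finset.card_le_card
    intro z hz
    rw [Finset.mem_range]
    rcases Finset.mem_union.mp hz with h | h
    · exact hUlt z ((hmLo z).mp h).1
    · exact hUlt z ((hmI z).mp h).1
  -- arcs
  have hILo : ∀ z ∈ I, ∀ v ∈ Lo, arc M z v = true := by
    intro z hz v hv
    obtain ⟨hzU, i, hi, rfl⟩ := (hmI z).mp hz
    obtain ⟨hvU, hvR, hvt⟩ := (hmLo v).mp hv
    have h1 := (hUp i hi).mp hzU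
    refine C_tot hM hvR.1 (hS.lt i hi) (fun h => hvR.2 i hi h.symm) ?_
    rw [hT.iff v hvR i hi]
    omega
  have hloU : ∀ v ∈ Lo, (UF.filter (fun z => arc M v z = true)).card < Lo.card := by
    intro v hv
    apply Finset.card_lt_card
    obtain ⟨hvU, hvR, hvt⟩ := (hmLo v).mp hv
    rw [Finset.ssubset_iff_of_subset]
    · refine ⟨v, hv, ?_⟩
      intro h
      exact C_ne hM hvR.1 hvR.1 (Finset.mem_filter.mp h).2 rfl
    · intro z hz
      obtain ⟨hzU, hvz⟩ := Finset.mem_filter.mp hz
      rw [hmU] at hzU
      rw [hmLo]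
      rcases hUc z hzU with hzR | ⟨i, hi, rfl⟩
      · refine ⟨hzU, hzR, ?_⟩
        rcases hUR z hzU hzR with h | h
        · exact h
        · have := CT_two hM hS hT hvR hzR hvz
          omega
      · have h1 := (hUp i hi).mp hzU
        rw [hT.iff v hvR i hi] at hvz
        omega
  have hIU : ∀ v ∈ I, Lo.card ≤ (UF.filter (fun z => arc M v z = true)).card ∧
      (UF.filter (fun z => arc M v z = true)).card < Lo.card + I.card := by
    intro v hv
    obtain ⟨hvU, i, hi, rfl⟩ := (hmI v).mp hv
    have h1 := (hUp i hi).mp hvU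
    constructor
    · apply Finset.card_le_card
      intro z hz
      rw [Finset.mem_filter, hmU]
      exact ⟨((hmLo z).mp hz).1, hILo _ hv z hz⟩
    · rw [← hcard]
      apply Finset.card_lt_card
      rw [Finset.ssubset_iff_of_subset]
      · refine ⟨p i, Finset.mem_union_right _ hv, ?_⟩
        intro h
        exact C_ne hM (hS.lt i hi) (hS.lt i hi) (Finset.mem_filter.mp h).2 rfl
      · intro z hz
        obtain ⟨hzU, hvz⟩ := Finset.mem_filter.mp hz
        rw [hmU] at hzU
        rw [Finset.mem_union, hmLo, hmI]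
        rcases hUc z hzU with hzR | h2
        · left
          refine ⟨hzU, hzR, ?_⟩
          rcases hUR z hzU hzR with h | h
          · exact h
          · exfalso
            have h3 : arc M z (p i) = true := (hT.iff z hzR i hi).mpr (by omega)
            exact C_asymm hM (hS.lt i hi) hzR.1 hvz h3
        · exact Or.inr ⟨hzU, h2⟩
  have hHi : ∀ v ∈ U, CR M m p v → ¬ t v ≤ t a + 1 →
      Lo.card + I.card ≤ (UF.filter (fun z => arc M v z = true)).card := by
    intro v hvU hvR hvt
    have hvt2 : t b ≤ t v + 1 := (hUR v hvU hvR).resolve_left hvt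
    rw [← hcard]
    apply Finset.card_le_card
    intro z hz
    rw [Finset.mem_filter, hmU]
    rcases Finset.mem_union.mp hz with h | h
    · obtain ⟨hzU, hzR, hzt⟩ := (hmLo z).mp h
      refine ⟨hzU, ?_⟩
      refine C_tot hM hzR.1 hvR.1 (fun h2 => hvt (h2 ▸ hzt)) ?_
      intro h2
      have := CT_two hM hS hT hzR hvR h2
      omega
    · obtain ⟨hzU, i, hi, rfl⟩ := (hmI z).mp h
      have h1 := (hUp i hi).mp hzU
      exact ⟨hzU, (hT.iff v hvR i hi).mpr (by omega)⟩
  refine ⟨Lo.card, Lo.card + I.card, by omega, by omega, ?_⟩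
  refine (List.perm_ext_iff_of_nodup ?_ (C_seg_nodup hS (by omega))).mpr ?_
  · unfold band
    exact hUn.filter _
  intro z
  unfold band
  rw [List.mem_filter, Bool.and_eq_true, decide_eq_true_eq, decide_eq_true_eq, hdeg, C_mem_seg]
  constructor
  · rintro ⟨hzU, h1, h2⟩
    rcases hUc z hzU with hzR | ⟨i, hi, rfl⟩
    · exfalso
      by_cases h3 : t z ≤ t a + 1
      · have := hloU z ((hmLo z).mpr ⟨hzU, hzR, h3⟩)
        omega
      · have := hHi z hzU hzR h3
        omega
    · have h3 := (hUp i hi).mp hzU
      exact ⟨i, by omega, by omega, rfl⟩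
  · rintro ⟨i, h1, h2, rfl⟩
    have hzU : p i ∈ U := (hUp i (by omega)).mpr ⟨by omega, by omega⟩
    exact ⟨hzU, hIU _ ((hmI _).mpr ⟨hzU, i, by omega, rfl⟩)⟩

theorem C_piece {H : Mat × ℕ × ℕ → Bool} (hM : IsTour M) (hH : Correct H M) (hS : CS M m p x)
    (hT : CT M m p t) {a b : ℕ} (ha : CL M m p a) (hb : CU M m p b)
    (hcov : ∀ v, CR M m p v → ¬ (CO M a v ∧ CO M v b)) (hs : t a < t b) :
    piece H M (gap M a b) (p (t a)) (p (t b - 1)) (t b - t a) = true := by
  have htb := hT.le b
  unfold piece
  rw [Bool.or_eq_true, Bool.or_eq_true]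
  by_cases h1 : t b = t a + 1
  · left; left
    rw [Bool.and_eq_true, decide_eq_true_eq, decide_eq_true_eq]
    exact ⟨by rw [h1, Nat.add_sub_cancel], by omega⟩
  have hne : p (t a) ≠ p (t b - 1) := by
    intro h
    have := hS.inj _ _ (by omega) (by omega) h
    omega
  by_cases h3 : t b = t a + 3
  · left; right
    rw [Bool.and_eq_true, Bool.and_eq_true, decide_eq_true_eq, decide_eq_true_eq,
      List.any_eq_true]
    refine ⟨⟨hne, by omega⟩, p (t a + 1), ?_, ?_⟩
    · rw [C_gap_path hS hT ha hb _ (by omega)]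
      omega
    · rw [Bool.and_eq_true]
      refine ⟨hS.ch _ (by omega), ?_⟩
      have := hS.ch (t a + 1) (by omega)
      rw [show t b - 1 = t a + 1 + 1 by omega]
      exact this
  right
  rw [Bool.and_eq_true, decide_eq_true_eq, List.any_eq_true]
  refine ⟨hne, ?_⟩
  have key : ∃ A B : ℕ, A ≤ M.length ∧ B ≤ M.length ∧
      (band M (del2 (gap M a b) (p (t a)) (p (t b - 1))) A B).Perm
        (Cseg p (t a + 1) (t b - t a - 2)) := by
    by_cases h4 : t b = t a + 2
    · refine ⟨0, 0, Nat.zero_le _, Nat.zero_le _, ?_⟩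
      have e1 : t b - t a - 2 = 0 := by omega
      rw [e1]
      have e2 : band M (del2 (gap M a b) (p (t a)) (p (t b - 1))) 0 0 = [] := by
        unfold band
        rw [List.filter_eq_nil_iff]
        intro z _
        simp
      rw [e2]
      exact List.Perm.refl _
    · exact C_band hM hS hT ha hb hcov (by omega)
  obtain ⟨A, B, hA, hB, hp⟩ := key
  refine ⟨A, by unfold rng; rw [List.mem_range]; omega, ?_⟩
  rw [List.any_eq_true]
  refine ⟨B, by unfold rng; rw [List.mem_range]; omega, ?_⟩
  rw [Bool.and_eq_true, decide_eq_true_eq]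
  constructor
  · rw [hp.length_eq]
    unfold Cseg
    rw [List.length_map, List.length_range']
    omega
  · have := C_H hH hS (t a) (t b - t a - 2) (by omega) _ hp
    rw [show t a + (t b - t a - 2) + 1 = t b - 1 by omega] at this
    exact this

/-- the state of a vertex -/
def Cst (M : Mat) (p t : ℕ → ℕ) (a : ℕ) : ℕ × ℕ × ℕ :=
  (a, if t a = 0 then M.length else p (t a - 1), t a)

theorem C_cover {H : Mat × ℕ × ℕ → Bool} (hM : IsTour M) (hH : Correct H M) (hS : CS M m p x)
    (hT : CT M m p t) (hmn : m ≤ M.length) {a b : ℕ} (ha : CL M m p a) (hb : CU M m p b)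
    (hab : CO M a b) (hcov : ∀ v, CR M m p v → ¬ (CO M a v ∧ CO M v b)) :
    step H M x (Cst M p t a) (Cst M p t b) = true := by
  have hle := CO_le hS hT ha hb hab
  have htb := hT.le b
  unfold step
  rw [Bool.and_eq_true, List.all_eq_true, Bool.or_eq_true, Bool.and_eq_true, Bool.and_eq_true,
    decide_eq_true_eq, decide_eq_true_eq, decide_eq_true_eq, List.any_eq_true]
  refine ⟨fun v hv => decide_eq_true (hab v hv), ?_⟩
  rcases hle.eq_or_lt with h1 | h1
  · left
    unfold Cst
    simp only [h1]
    exact ⟨trivial, trivial⟩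
  · right
    have e1 : (Cst M p t b).2.1 = p (t b - 1) := by
      unfold Cst
      simp only
      rw [if_neg (by omega)]
    rw [e1]
    refine ⟨(C_gap_path hS hT ha hb _ (by omega)).mpr (by omega), p (t a),
      (C_gap_path hS hT ha hb _ (by omega)).mpr (by omega), ?_⟩
    rw [Bool.and_eq_true, List.any_eq_true]
    constructor
    · rw [Bool.or_eq_true, Bool.and_eq_true, Bool.and_eq_true, decide_eq_true_eq,
        decide_eq_true_eq, decide_eq_true_eq]
      by_cases h0 : t a = 0
      · left
        constructor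
        · unfold Cst
          simp only
          rw [if_pos h0]
        · rw [h0]
          exact hS.hd
      · right
        have e2 : (Cst M p t a).2.1 = p (t a - 1) := by
          unfold Cst
          simp only
          rw [if_neg h0]
        rw [e2]
        refine ⟨(hS.lt _ (by omega)).ne, ?_⟩
        have := hS.ch (t a - 1) (by omega)
        rw [Nat.sub_add_cancel (by omega)] at this
        exact this
    · refine ⟨t b - t a, by unfold rng; rw [List.mem_range]; omega, ?_⟩
      rw [Bool.and_eq_true, decide_eq_true_eq]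
      refine ⟨?_, C_piece hM hH hS hT ha hb hcov h1⟩
      unfold Cst
      simp only
      omega

theorem C_states_mono {H : Mat × ℕ × ℕ → Bool} (x k : ℕ) :
    ∀ c ∈ states H M x k, c ∈ states H M x (k + 1) := by
  induction k with
  | zero =>
    intro c hc
    simp only [states, List.mem_singleton] at hc
    subst hc
    simp [states]
  | succ k ih =>
    intro c hc
    rw [states, List.mem_cons] at hc ⊢
    rcases hc with h | h
    · exact Or.inl h
    · right
      rw [List.mem_filter, List.any_eq_true] at h ⊢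
      obtain ⟨h1, d, hd, h2⟩ := h
      exact ⟨h1, d, ih d hd, h2⟩

theorem C_states_le {H : Mat × ℕ × ℕ → Bool} (x : ℕ) {k l : ℕ} (h : k ≤ l) :
    ∀ c ∈ states H M x k, c ∈ states H M x l := by
  induction l, h using Nat.le_induction with
  | base => exact fun c hc => hc
  | succ l _ ih => exact fun c hc => C_states_mono x l c (ih c hc)

theorem C_cand (hS : CS M m p x) (hT : CT M m p t) (hmn : m ≤ M.length) {b : ℕ}
    (hb : CU M m p b) : Cst M p t b ∈ cand M := by
  have htb := hT.le b
  have hb' : b ≤ M.length := by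
    rcases hb with h | h
    · exact h.1.le
    · exact h.le
  unfold cand
  rw [List.mem_flatMap]
  refine ⟨b, List.mem_range.mpr (by omega), ?_⟩
  rw [List.mem_flatMap]
  refine ⟨(Cst M p t b).2.1, ?_, ?_⟩
  · unfold rng Cst
    rw [List.mem_range]
    simp only
    split_ifs
    · omega
    · have := hS.lt (t b - 1) (by omega)
      omega
  · rw [List.mem_map]
    exact ⟨t b, by unfold rng; rw [List.mem_range]; omega, rfl⟩

open Classical in
/-- number of vertices between `a` and `b` -/
noncomputable def Cnum (M : Mat) (m : ℕ) (p : ℕ → ℕ) (a b : ℕ) : ℕ :=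
  ((Finset.range M.length).filter (fun v => CR M m p v ∧ CO M a v ∧ CO M v b)).card

theorem C_chain {H : Mat × ℕ × ℕ → Bool} (hM : IsTour M) (hH : Correct H M) (hS : CS M m p x)
    (hT : CT M m p t) (hmn : m ≤ M.length) (c : ℕ) :
    ∀ a b : ℕ, CL M m p a → CU M m p b → CO M a b → Cnum M m p a b = c → ∀ j,
      Cst M p t a ∈ states H M x j → Cst M p t b ∈ states H M x (j + c + 1) := by
  classical
  induction c using Nat.strong_induction_on with
  | _ c ih =>
    intro a b ha hb hab hc j hj
    by_cases hcov : ∀ v, CR M m p v → ¬ (CO M a v ∧ CO M v b)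
    · have h1 := C_cover hM hH hS hT hmn ha hb hab hcov
      have h2 : Cst M p t b ∈ states H M x (j + 1) := by
        rw [states, List.mem_cons, List.mem_filter, List.any_eq_true]
        exact Or.inr ⟨C_cand hS hT hmn hb, _, hj, h1⟩
      exact C_states_le x (by omega) _ h2
    · push Not at hcov
      obtain ⟨v, hv, hav, hvb⟩ := hcov
      have hmem : ∀ a b z, z ∈ (Finset.range M.length).filter
          (fun v => CR M m p v ∧ CO M a v ∧ CO M v b) ↔ CR M m p z ∧ CO M a z ∧ CO M z b := by
        intro a b z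
        rw [Finset.mem_filter, Finset.mem_range]
        exact ⟨fun h => h.2, fun h => ⟨h.1.1, h⟩⟩
      have hsum : Cnum M m p a v + Cnum M m p v b + 1 ≤ c := by
        rw [← hc]
        unfold Cnum
        have h1 : Disjoint ((Finset.range M.length).filter
            (fun z => CR M m p z ∧ CO M a z ∧ CO M z v))
            ((Finset.range M.length).filter (fun z => CR M m p z ∧ CO M v z ∧ CO M z b)) := by
          rw [Finset.disjoint_left]
          intro z h1 h2
          rw [hmem] at h1 h2
          exact CO_irr hM h1.1.1 (CO_trans hv.1 h1.2.2 h2.2.1)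
        rw [← Finset.card_union_of_disjoint h1]
        have h2 : v ∉ ((Finset.range M.length).filter
            (fun z => CR M m p z ∧ CO M a z ∧ CO M z v)) ∪
            ((Finset.range M.length).filter (fun z => CR M m p z ∧ CO M v z ∧ CO M z b)) := by
          rw [Finset.mem_union, hmem, hmem]
          rintro (h | h)
          · exact CO_irr hM hv.1 h.2.2
          · exact CO_irr hM hv.1 h.2.1
        rw [← Finset.card_insert_of_notMem h2]
        apply Finset.card_le_card
        intro z hz
        rw [hmem]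
        rcases Finset.mem_insert.mp hz with rfl | hz
        · exact ⟨hv, hav, hvb⟩
        rcases Finset.mem_union.mp hz with h | h
        · rw [hmem] at h
          exact ⟨h.1, h.2.1, CO_trans hv.1 h.2.2 hvb⟩
        · rw [hmem] at h
          exact ⟨h.1, CO_trans hv.1 hav h.2.1, h.2.2⟩
      have h1 := ih (Cnum M m p a v) (by omega) a v ha (Or.inl hv) hav rfl j hj
      have h2 := ih (Cnum M m p v b) (by omega) v b (Or.inl hv) hb hvb rfl _ h1
      exact C_states_le x (by omega) _ h2

end main

theorem complete {H : Mat × ℕ × ℕ → Bool} {M : Mat} {x y : ℕ} {P : List ℕ} (hM : IsTour M)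
    (hH : Correct H M) (hP : IsPath M x y P)
    (hmax : ∀ l, IsPath M x y l → l.length ≤ P.length) :
    (M.length, y, P.length) ∈ states H M x (M.length + 2) := by
  classical
  have hS := CS_of hM hP hmax
  obtain ⟨t, hT⟩ := CT_exists hM hS
  have hmn : P.length ≤ M.length := by
    rw [← List.toFinset_card_of_nodup hP.nodup, ← Finset.card_range M.length]
    apply Finset.card_le_card
    intro v hv
    rw [List.mem_toFinset] at hv
    exact Finset.mem_range.mpr (hP.lt v hv)
  have h1 : Cst M (fun i => P.getD i 0) t (M.length + 1) ∈ states H M x 0 := by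
    have e : Cst M (fun i => P.getD i 0) t (M.length + 1) = ini M := by
      unfold Cst ini
      rw [hT.bot]
      rfl
    rw [e]
    simp [states]
  have h2 := C_chain hM hH hS hT hmn _ (M.length + 1) M.length (Or.inr rfl) (Or.inr rfl)
    (by
      intro v hv
      rw [C_low_bot] at hv
      simp at hv) rfl 0 h1
  have h3 : Cst M (fun i => P.getD i 0) t M.length = (M.length, y, P.length) := by
    unfold Cst
    rw [hT.top, if_neg hS.pos.ne']
    have h4 := hP.last
    rw [List.getLast?_eq_getElem?, List.getElem?_eq_getElem (by have := hS.pos; omega)] at h4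
    have h5 : P.getD (P.length - 1) 0 = y := by
      rw [List.getD_eq_getElem _ _ (by have := hS.pos; omega)]
      exact Option.some.inj h4
    simp only [h5]
  rw [h3] at h2
  refine C_states_le x ?_ _ h2
  have h4 : Cnum M P.length (fun i => P.getD i 0) (M.length + 1) M.length ≤ M.length := by
    unfold Cnum
    refine (Finset.card_filter_le _ _).trans ?_
    rw [Finset.card_range]
  omega

end Pool.Agent.Helper944_LP
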