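import Pool.Agent.Helper944_LP.Defs2

/-!
# Longest paths between two prescribed vertices in tournaments: correctness of the extraction
-/

namespace Pool.Agent.Helper944_LP

theorem isPath_cons {M : Mat} {c v y : ℕ} {l : List ℕ} (h : IsPath M v y l) (hc : c < M.length)
    (hcl : c ∉ l) (ha : arc M c v = true) : IsPath M c y (c :: l) := by
  obtain ⟨h1, h2, h3, h4, h5⟩ := h
  cases l with
  | nil => simp at h4
  | cons w t =>
    simp only [List.head?_cons, Option.some.injEq] at h4
    subst h4
    refine ⟨List.nodup_cons.2 ⟨hcl, h1⟩, ?_, ?_, rfl, ?_⟩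
    · intro z hz
      rcases List.mem_cons.1 hz with rfl | hz
      · exact hc
      · exact h2 z hz
    · exact List.isChain_cons_cons.2 ⟨ha, h3⟩
    · rw [List.getLast?_cons_cons]; exact h5

theorem isPath_tail {M : Mat} {c y : ℕ} {l : List ℕ} (h : IsPath M c y l) (hl : 2 ≤ l.length) :
    ∃ v t, l = c :: v :: t ∧ arc M c v = true ∧ IsPath M v y (v :: t) ∧ c ∉ v :: t := by
  obtain ⟨h1, h2, h3, h4, h5⟩ := h
  match l, hl with
  | a :: v :: t, _ =>
    simp only [List.head?_cons, Option.some.injEq] at h4
    subst h4
    obtain ⟨h6, h7⟩ := List.isChain_cons_cons.1 h3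
    obtain ⟨h8, h9⟩ := List.nodup_cons.1 h1
    refine ⟨v, t, rfl, h6, ⟨h9, fun z hz => h2 z (List.mem_cons_of_mem _ hz), h7, rfl, ?_⟩, h8⟩
    rw [List.getLast?_cons_cons] at h5
    exact h5

theorem extract_loop {H : Mat × ℕ × ℕ → Bool} {M : Mat}
    (val_spec : ∀ (U : List ℕ) (v y : ℕ), (v :: U).Nodup → (∀ z ∈ v :: U, z < M.length) → y ∈ v :: U →
      (∀ l, IsPath M v y l → (∀ z ∈ l, z ∈ v :: U) → l.length ≤ val H M U v y) ∧
      (0 < val H M U v y → ∃ l, IsPath M v y l ∧ (∀ z ∈ l, z ∈ v :: U) ∧
        l.length = val H M U v y)) (y : ℕ) :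
    ∀ (k : ℕ) (acc : List ℕ) (c : ℕ) (U : List ℕ) (r : ℕ), (c :: U).Nodup →
      (∀ z ∈ c :: U, z < M.length) → y ∈ c :: U → r = val H M U c y → 1 ≤ r → r ≤ k + 1 →
      ∃ l, ((next H M y)^[k] (c :: acc, U, r)).1.reverse = acc.reverse ++ l ∧ IsPath M c y l ∧
        l.length = r ∧ ∀ z ∈ l, z ∈ c :: U := by
  intro k
  induction k with
  | zero =>
    intro acc c U r h1 h2 h3 h4 h5 h6
    obtain ⟨l, hl1, hl2, hl3⟩ := (val_spec U c y h1 h2 h3).2 (by omega)
    have hr : l.length = 1 := by omega
    obtain ⟨a, rfl⟩ := List.length_eq_one_iff.1 hr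
    have ha := hl1.head
    simp only [List.head?_cons, Option.some.injEq] at ha
    subst ha
    exact ⟨[a], by simp, hl1, by omega, hl2⟩
  | succ k ih =>
    intro acc c U r h1 h2 h3 h4 h5 h6
    rw [Function.iterate_succ_apply]
    by_cases hr : 2 ≤ r
    · -- the next vertex
      obtain ⟨hcU, hU⟩ := List.nodup_cons.1 h1
      have hc : c < M.length := h2 c (by simp)
      have hyc : y ≠ c := by
        intro h
        rw [h4, val, if_pos h.symm] at hr
        omega
      have hyU : y ∈ U := by
        rcases List.mem_cons.1 h3 with h | h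
        · exact absurd h hyc
        · exact h
      have hinv : ∀ v ∈ U, (v :: U.filter (fun z => decide (z ≠ v))).Nodup ∧
          (∀ z ∈ v :: U.filter (fun z => decide (z ≠ v)), z < M.length) ∧
          y ∈ v :: U.filter (fun z => decide (z ≠ v)) := by
        intro v hv
        refine ⟨List.nodup_cons.2 ⟨by simp, hU.filter _⟩, ?_, ?_⟩
        · intro z hz
          rcases List.mem_cons.1 hz with rfl | hz
          · exact h2 z (by simp [hv])
          · exact h2 z (by simp [(List.mem_filter.1 hz).1])
        · by_cases hyv : y = v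
          · simp [hyv]
          · simp [hyU, hyv]
      obtain ⟨l, hl1, hl2, hl3⟩ := (val_spec U c y h1 h2 h3).2 (by omega)
      obtain ⟨v, t, rfl, hv1, hv2, hv3⟩ := isPath_tail hl1 (by omega)
      have hvU : v ∈ U := by
        have := hl2 v (by simp)
        rcases List.mem_cons.1 this with h | h
        · exact absurd h (fun h => hv3 (by simp [h]))
        · exact h
      have hsub : ∀ z ∈ v :: t, z ∈ v :: U.filter (fun z => decide (z ≠ v)) := by
        intro z hz
        have h7 := hl2 z (List.mem_cons_of_mem _ hz)
        have h8 : z ≠ c := fun h => hv3 (h ▸ hz)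
        have h9 : z ∈ U := by
          rcases List.mem_cons.1 h7 with h | h
          · exact absurd h h8
          · exact h
        by_cases hzv : z = v
        · simp [hzv]
        · simp [h9, hzv]
      obtain ⟨i1, i2, i3⟩ := hinv v hvU
      have hge := (val_spec _ v y i1 i2 i3).1 (v :: t) hv2 hsub
      have hle : ∀ w ∈ U, arc M c w = true →
          0 < val H M (U.filter (fun z => decide (z ≠ w))) w y →
          val H M (U.filter (fun z => decide (z ≠ w))) w y + 1 ≤ r := by
        intro w hw hcw hpos
        obtain ⟨j1, j2, j3⟩ := hinv w hw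
        obtain ⟨l', hl'1, hl'2, hl'3⟩ := (val_spec _ w y j1 j2 j3).2 hpos
        have hsub' : ∀ z ∈ l', z ∈ U := by
          intro z hz
          rcases List.mem_cons.1 (hl'2 z hz) with rfl | h
          · exact hw
          · exact (List.mem_filter.1 h).1
        have hp := isPath_cons hl'1 hc (fun h => hcU (hsub' c h)) hcw
        have := (val_spec U c y h1 h2 h3).1 (c :: l') hp (by
          intro z hz
          rcases List.mem_cons.1 hz with rfl | hz
          · simp
          · simp [hsub' z hz])
        simp only [List.length_cons] at this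
        omega
      simp only [List.length_cons] at hl3 hge
      have hle' := hle v hvU hv1 (by omega)
      have hmem : v ∈ U.filter (fun v => decide (2 ≤ r) && (arc M c v &&
          decide (val H M (U.filter (fun z => decide (z ≠ v))) v y + 1 = r))) := by
        rw [List.mem_filter]
        refine ⟨hvU, ?_⟩
        simp only [hr, decide_true, hv1, Bool.true_and, decide_eq_true_eq]
        omega
      obtain ⟨w, hw⟩ : ∃ w, (U.filter (fun v => decide (2 ≤ r) && (arc M c v &&
          decide (val H M (U.filter (fun z => decide (z ≠ v))) v y + 1 = r)))).head? =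
            some w := by
        cases hL : U.filter (fun v => decide (2 ≤ r) && (arc M c v &&
          decide (val H M (U.filter (fun z => decide (z ≠ v))) v y + 1 = r))) with
        | nil => rw [hL] at hmem; simp at hmem
        | cons w L => exact ⟨w, rfl⟩
      have hwm := List.mem_of_mem_head? hw
      rw [List.mem_filter] at hwm
      obtain ⟨hwU, hw2⟩ := hwm
      simp only [hr, decide_true, Bool.true_and, Bool.and_eq_true, decide_eq_true_eq] at hw2
      obtain ⟨hw3, hw4⟩ := hw2
      have hnext : next H M y (c :: acc, U, r) =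
          (w :: c :: acc, U.filter (fun z => decide (z ≠ w)), r - 1) := by
        unfold next
        simp only [List.headD_cons]
        rw [hw]
      rw [hnext]
      obtain ⟨j1, j2, j3⟩ := hinv w hwU
      obtain ⟨l', e1, e2, e3, e4⟩ := ih (c :: acc) w (U.filter (fun z => decide (z ≠ w))) (r - 1)
        j1 j2 j3 (by omega) (by omega) (by omega)
      have hsub' : ∀ z ∈ l', z ∈ U := by
        intro z hz
        rcases List.mem_cons.1 (e4 z hz) with rfl | h
        · exact hwU
        · exact (List.mem_filter.1 h).1
      refine ⟨c :: l', by rw [e1]; simp, isPath_cons e2 hc (fun h => hcU (hsub' c h)) hw3,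
        by rw [List.length_cons, e3]; omega, ?_⟩
      intro z hz
      rcases List.mem_cons.1 hz with rfl | hz
      · simp
      · simp [hsub' z hz]
    · have hr1 : r = 1 := by omega
      have hnext : next H M y (c :: acc, U, r) = (c :: acc, U, r) := by
        unfold next
        have : U.filter (fun v => decide (2 ≤ r) && (arc M c v &&
          decide (val H M (U.filter (fun z => decide (z ≠ v))) v y + 1 = r))) = [] := by
          rw [List.filter_eq_nil_iff]
          intro v _
          simp [hr]
        simp only [List.headD_cons]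
        rw [this]
        rfl
      rw [hnext]
      exact ih acc c U r h1 h2 h3 h4 h5 (by omega)

theorem extract_spec_of {H : Mat × ℕ × ℕ → Bool} {M : Mat} (hM : IsTour M)
    (val_spec : ∀ (U : List ℕ) (v y : ℕ), (v :: U).Nodup → (∀ z ∈ v :: U, z < M.length) → y ∈ v :: U →
      (∀ l, IsPath M v y l → (∀ z ∈ l, z ∈ v :: U) → l.length ≤ val H M U v y) ∧
      (0 < val H M U v y → ∃ l, IsPath M v y l ∧ (∀ z ∈ l, z ∈ v :: U) ∧
        l.length = val H M U v y))
    {x y : ℕ} (hx : x < M.length) (hy : y < M.length) :
    match extract H (M, x, y) with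
    | none => ¬ ∃ l, IsPath M x y l
    | some l => IsPath M x y l ∧ ∀ l', IsPath M x y l' → l'.length ≤ l.length := by
  have hall : ∀ z < M.length, z ∈ x :: others M x := by
    intro z hz
    by_cases h : z = x
    · simp [h]
    · simp [others, vs, hz, h]
  have h1 : (x :: others M x).Nodup := by
    refine List.nodup_cons.2 ⟨by simp [others], List.nodup_range.filter _⟩
  have h2 : ∀ z ∈ x :: others M x, z < M.length := by
    intro z hz
    rcases List.mem_cons.1 hz with rfl | hz
    · exact hx
    · have := (List.mem_filter.1 hz).1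
      simpa [vs] using this
  have h3 := hall y hy
  obtain ⟨v1, v2⟩ := val_spec (others M x) x y h1 h2 h3
  by_cases h0 : val H M (others M x) x y = 0
  · have e : extract H (M, x, y) = none := by
      unfold extract
      simp only [h0, if_true]
    rw [e]
    rintro ⟨l, hl⟩
    have := v1 l hl (fun z hz => hall z (hl.lt z hz))
    rw [h0] at this
    have hl0 : l = [] := List.length_eq_zero_iff.1 (by omega)
    have hh := hl.head
    rw [hl0] at hh
    simp at hh
  · obtain ⟨l0, p1, p2, p3⟩ := v2 (Nat.pos_of_ne_zero h0)
    have hlen : l0.length ≤ M.length := by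
      have hs : l0 ⊆ List.range M.length := fun z hz => List.mem_range.2 (p1.lt z hz)
      have := (p1.nodup.subperm hs).length_le
      simpa using this
    obtain ⟨l, e1, e2, e3, -⟩ := extract_loop val_spec y M.length [] x (others M x)
      (val H M (others M x) x y) h1 h2 h3 rfl (Nat.pos_of_ne_zero h0) (by omega)
    have e : extract H (M, x, y) = some l := by
      unfold extract
      simp only [h0, if_false]
      rw [e1]
      simp
    rw [e]
    refine ⟨e2, fun l' hl' => ?_⟩
    rw [e3]
    exact v1 l' hl' (fun z hz => hall z (hl'.lt z hz))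

end Pool.Agent.Helper944_LP
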