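import Pool.Agent.Helper944_LP.Defs2

/-!
# Longest paths between two prescribed vertices in tournaments: polynomial time
-/

set_option autoImplicit false

namespace Pool.Agent.Helper944_LP

open Pool.Agent.NPC

section aux

variable {α : Type} [TEnc α]

theorem poly_ne {p q : α → ℕ} (hp : NPC.Poly p) (hq : NPC.Poly q) :
    NPC.Poly (fun a => decide (p a ≠ q a)) :=
  (NPC.Poly.not (NPC.Poly.decide_eq hp hq)).congr fun a => by simp

theorem sz_filter_le {β : Type} [TEnc β] (p : β → Bool) (l : List β) :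
    sz (l.filter p) ≤ sz l := by
  induction l with
  | nil => simp
  | cons b l ih =>
    cases h : p b
    · rw [List.filter_cons_of_neg (by simp [h])]
      simp; omega
    · rw [List.filter_cons_of_pos h]
      simp; omega

theorem poly_arc {M : α → Mat} {u v : α → ℕ} (hM : NPC.Poly M) (hu : NPC.Poly u) (hv : NPC.Poly v) :
    NPC.Poly (fun a => arc (M a) (u a) (v a)) :=
  NPC.Poly.getD (NPC.Poly.getD hM hu (NPC.Poly.const [])) hv (NPC.Poly.const false)

theorem poly_vs {M : α → Mat} (hM : NPC.Poly M) : NPC.Poly (fun a => vs (M a)) := NPC.Poly.range_length hM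

theorem poly_up {M : α → Mat} {w : α → ℕ} (hM : NPC.Poly M) (hw : NPC.Poly w) :
    NPC.Poly (fun a => up (M a) (w a)) :=
  NPC.Poly.ite (NPC.Poly.decide_lt hw (NPC.Poly.length hM))
    (NPC.Poly.filter (p := fun a v => arc (M a) (w a) v) (poly_vs hM)
      (poly_arc (hM.comp (NPC.Poly.fst NPC.Poly.id)) (hw.comp (NPC.Poly.fst NPC.Poly.id)) (NPC.Poly.snd NPC.Poly.id)))
    (NPC.Poly.ite (NPC.Poly.decide_eq hw (NPC.Poly.length hM)) (poly_vs hM) (NPC.Poly.const []))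

theorem poly_low {M : α → Mat} {u : α → ℕ} (hM : NPC.Poly M) (hu : NPC.Poly u) :
    NPC.Poly (fun a => low (M a) (u a)) :=
  NPC.Poly.ite (NPC.Poly.decide_lt hu (NPC.Poly.length hM)) (NPC.Poly.cons hu (poly_up hM hu))
    (NPC.Poly.ite (NPC.Poly.decide_eq hu (NPC.Poly.length hM)) (NPC.Poly.cons hu (NPC.Poly.const [])) (NPC.Poly.const []))

theorem poly_sub {M : α → Mat} {l : α → List ℕ} (hM : NPC.Poly M) (hl : NPC.Poly l) :
    NPC.Poly (fun a => sub (M a) (l a)) :=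
  NPC.Poly.map (F := fun a u => (l a).map (fun v => arc (M a) u v)) hl
    (NPC.Poly.map (F := fun (p : α × ℕ) v => arc (M p.1) p.2 v) (hl.comp (NPC.Poly.fst NPC.Poly.id))
      (poly_arc (hM.comp (NPC.Poly.fst (NPC.Poly.fst NPC.Poly.id))) (NPC.Poly.snd (NPC.Poly.fst NPC.Poly.id))
        (NPC.Poly.snd NPC.Poly.id)))

theorem poly_deg {M : α → Mat} {U : α → List ℕ} {v : α → ℕ} (hM : NPC.Poly M) (hU : NPC.Poly U)
    (hv : NPC.Poly v) : NPC.Poly (fun a => deg (M a) (U a) (v a)) :=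
  NPC.Poly.length (NPC.Poly.filter (p := fun a z => arc (M a) (v a) z) hU
    (poly_arc (hM.comp (NPC.Poly.fst NPC.Poly.id)) (hv.comp (NPC.Poly.fst NPC.Poly.id)) (NPC.Poly.snd NPC.Poly.id)))

theorem poly_band {M : α → Mat} {U : α → List ℕ} {x y : α → ℕ} (hM : NPC.Poly M) (hU : NPC.Poly U)
    (hx : NPC.Poly x) (hy : NPC.Poly y) : NPC.Poly (fun a => band (M a) (U a) (x a) (y a)) :=
  NPC.Poly.filter (p := fun a v => decide (x a ≤ deg (M a) (U a) v) &&
      decide (deg (M a) (U a) v < y a)) hU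
    (NPC.Poly.and
      (NPC.Poly.decide_le (hx.comp (NPC.Poly.fst NPC.Poly.id))
        (poly_deg (hM.comp (NPC.Poly.fst NPC.Poly.id)) (hU.comp (NPC.Poly.fst NPC.Poly.id)) (NPC.Poly.snd NPC.Poly.id)))
      (NPC.Poly.decide_lt
        (poly_deg (hM.comp (NPC.Poly.fst NPC.Poly.id)) (hU.comp (NPC.Poly.fst NPC.Poly.id)) (NPC.Poly.snd NPC.Poly.id))
        (hy.comp (NPC.Poly.fst NPC.Poly.id))))

theorem poly_del2 {Z : α → List ℕ} {p q : α → ℕ} (hZ : NPC.Poly Z) (hp : NPC.Poly p) (hq : NPC.Poly q) :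
    NPC.Poly (fun a => del2 (Z a) (p a) (q a)) :=
  NPC.Poly.filter (p := fun a v => decide (v ≠ p a) && decide (v ≠ q a)) hZ
    (NPC.Poly.and (poly_ne (NPC.Poly.snd NPC.Poly.id) (hp.comp (NPC.Poly.fst NPC.Poly.id)))
      (poly_ne (NPC.Poly.snd NPC.Poly.id) (hq.comp (NPC.Poly.fst NPC.Poly.id))))

theorem poly_rng {M : α → Mat} (hM : NPC.Poly M) : NPC.Poly (fun a => rng (M a)) :=
  UPoly.range (UPoly.add (UPoly.length hM) (UPoly.const 1))

theorem poly_piece {H : Mat × ℕ × ℕ → Bool} (hH : NPC.Poly H) {M : α → Mat} {Z : α → List ℕ}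
    {p q s : α → ℕ} (hM : NPC.Poly M) (hZ : NPC.Poly Z) (hp : NPC.Poly p) (hq : NPC.Poly q) (hs : NPC.Poly s) :
    NPC.Poly (fun a => piece H (M a) (Z a) (p a) (q a) (s a)) := by
  have f1 : ∀ {β : Type} [TEnc β], NPC.Poly (fun x : α × β => x.1) := fun {β} _ => NPC.Poly.fst NPC.Poly.id
  have f2 : ∀ {β γ : Type} [TEnc β] [TEnc γ], NPC.Poly (fun x : (α × β) × γ => x.1.1) :=
    fun {β γ} _ _ => NPC.Poly.fst (NPC.Poly.fst NPC.Poly.id)
  have hb : NPC.Poly (fun x : (α × ℕ) × ℕ =>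
      band (M x.1.1) (del2 (Z x.1.1) (p x.1.1) (q x.1.1)) x.1.2 x.2) :=
    poly_band (hM.comp f2) (poly_del2 (hZ.comp f2) (hp.comp f2) (hq.comp f2))
      (NPC.Poly.snd (NPC.Poly.fst NPC.Poly.id)) (NPC.Poly.snd NPC.Poly.id)
  refine NPC.Poly.or (NPC.Poly.or (NPC.Poly.and (NPC.Poly.decide_eq hp hq) (NPC.Poly.decide_eq hs (NPC.Poly.const 1)))
    (NPC.Poly.and (NPC.Poly.and (poly_ne hp hq) (NPC.Poly.decide_eq hs (NPC.Poly.const 3)))
      (NPC.Poly.any (p := fun a r => arc (M a) (p a) r && arc (M a) r (q a)) hZ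
        (NPC.Poly.and (poly_arc (hM.comp f1) (hp.comp f1) (NPC.Poly.snd NPC.Poly.id))
          (poly_arc (hM.comp f1) (NPC.Poly.snd NPC.Poly.id) (hq.comp f1))))))
    (NPC.Poly.and (poly_ne hp hq) ?_)
  refine NPC.Poly.any (p := fun a x => (rng (M a)).any (fun b =>
    decide (s a = (band (M a) (del2 (Z a) (p a) (q a)) x b).length + 2) &&
      H (sub (M a) (p a :: q a :: band (M a) (del2 (Z a) (p a) (q a)) x b), 0, 1)))
    (poly_rng hM) ?_
  refine NPC.Poly.any (p := fun (y : α × ℕ) b =>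
    decide (s y.1 = (band (M y.1) (del2 (Z y.1) (p y.1) (q y.1)) y.2 b).length + 2) &&
      H (sub (M y.1) (p y.1 :: q y.1 :: band (M y.1) (del2 (Z y.1) (p y.1) (q y.1)) y.2 b), 0, 1))
    (poly_rng (hM.comp f1)) ?_
  exact NPC.Poly.and (NPC.Poly.decide_eq (hs.comp f2) (NPC.Poly.add (NPC.Poly.length hb) (NPC.Poly.const 2)))
    (hH.comp (NPC.Poly.pair (poly_sub (hM.comp f2) (NPC.Poly.cons (hp.comp f2) (NPC.Poly.cons (hq.comp f2) hb)))
      (NPC.Poly.pair (NPC.Poly.const 0) (NPC.Poly.const 1))))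

theorem poly_gap {M : α → Mat} {u w : α → ℕ} (hM : NPC.Poly M) (hu : NPC.Poly u) (hw : NPC.Poly w) :
    NPC.Poly (fun a => gap (M a) (u a) (w a)) :=
  NPC.Poly.filter (p := fun a v => decide (v ∉ low (M a) (u a))) (poly_up hM hw)
    ((NPC.Poly.not (NPC.Poly.decide_mem (NPC.Poly.snd NPC.Poly.id)
      (poly_low (hM.comp (NPC.Poly.fst NPC.Poly.id)) (hu.comp (NPC.Poly.fst NPC.Poly.id))))).congr
        fun a => by simp)

theorem poly_step {H : Mat × ℕ × ℕ → Bool} (hH : NPC.Poly H) {M : α → Mat} {x : α → ℕ}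
    {d c : α → ℕ × ℕ × ℕ} (hM : NPC.Poly M) (hx : NPC.Poly x) (hd : NPC.Poly d) (hc : NPC.Poly c) :
    NPC.Poly (fun a => step H (M a) (x a) (d a) (c a)) := by
  have f1 : ∀ {β : Type} [TEnc β], NPC.Poly (fun x : α × β => x.1) := fun {β} _ => NPC.Poly.fst NPC.Poly.id
  have f2 : ∀ {β γ : Type} [TEnc β] [TEnc γ], NPC.Poly (fun x : (α × β) × γ => x.1.1) :=
    fun {β γ} _ _ => NPC.Poly.fst (NPC.Poly.fst NPC.Poly.id)
  have hd1 : NPC.Poly (fun a => (d a).1) := NPC.Poly.fst hd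
  have hd2 : NPC.Poly (fun a => (d a).2.1) := NPC.Poly.fst (NPC.Poly.snd hd)
  have hd3 : NPC.Poly (fun a => (d a).2.2) := NPC.Poly.snd (NPC.Poly.snd hd)
  have hc1 : NPC.Poly (fun a => (c a).1) := NPC.Poly.fst hc
  have hc2 : NPC.Poly (fun a => (c a).2.1) := NPC.Poly.fst (NPC.Poly.snd hc)
  have hc3 : NPC.Poly (fun a => (c a).2.2) := NPC.Poly.snd (NPC.Poly.snd hc)
  have hg : NPC.Poly (fun a => gap (M a) (d a).1 (c a).1) := poly_gap hM hd1 hc1
  refine NPC.Poly.and (NPC.Poly.all (p := fun a v => decide (v ∈ up (M a) (c a).1)) (poly_low hM hd1)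
    (NPC.Poly.decide_mem (NPC.Poly.snd NPC.Poly.id) (poly_up (hM.comp f1) (hc1.comp f1)))) ?_
  refine NPC.Poly.or (NPC.Poly.and (NPC.Poly.decide_eq hc2 hd2) (NPC.Poly.decide_eq hc3 hd3)) ?_
  refine NPC.Poly.and (NPC.Poly.decide_mem hc2 hg) ?_
  refine NPC.Poly.any (p := fun a p =>
        ((decide ((d a).2.1 = (M a).length) && decide (p = x a)) ||
          (decide ((d a).2.1 ≠ (M a).length) && arc (M a) (d a).2.1 p)) &&
        (rng (M a)).any (fun s => decide ((c a).2.2 = (d a).2.2 + s) &&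
          piece H (M a) (gap (M a) (d a).1 (c a).1) p (c a).2.1 s)) hg ?_
  refine NPC.Poly.and (NPC.Poly.or (NPC.Poly.and (NPC.Poly.decide_eq (hd2.comp f1) (NPC.Poly.length (hM.comp f1)))
    (NPC.Poly.decide_eq (NPC.Poly.snd NPC.Poly.id) (hx.comp f1)))
    (NPC.Poly.and (poly_ne (hd2.comp f1) (NPC.Poly.length (hM.comp f1)))
      (poly_arc (hM.comp f1) (hd2.comp f1) (NPC.Poly.snd NPC.Poly.id)))) ?_
  refine NPC.Poly.any (p := fun (y : α × ℕ) s => decide ((c y.1).2.2 = (d y.1).2.2 + s) &&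
          piece H (M y.1) (gap (M y.1) (d y.1).1 (c y.1).1) y.2 (c y.1).2.1 s)
    (poly_rng (hM.comp f1)) ?_
  exact NPC.Poly.and (NPC.Poly.decide_eq (hc3.comp f2) (NPC.Poly.add (hd3.comp f2) (NPC.Poly.snd NPC.Poly.id)))
    (poly_piece hH (hM.comp f2) (hg.comp f2) (NPC.Poly.snd (NPC.Poly.fst NPC.Poly.id)) (hc2.comp f2)
      (NPC.Poly.snd NPC.Poly.id))

theorem poly_cand {M : α → Mat} (hM : NPC.Poly M) : NPC.Poly (fun a => cand (M a)) := by
  refine NPC.Poly.flatMap (F := fun a w => (rng (M a)).flatMap (fun q => (rng (M a)).map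
    (fun s => (w, q, s)))) (UPoly.range (UPoly.add (UPoly.length hM) (UPoly.const 2))) ?_
  refine NPC.Poly.flatMap (F := fun (x : α × ℕ) q => (rng (M x.1)).map
    (fun s => (x.2, q, s))) (poly_rng (hM.comp (NPC.Poly.fst NPC.Poly.id))) ?_
  exact NPC.Poly.map (F := fun (x : (α × ℕ) × ℕ) s => (x.1.2, x.2, s))
    (poly_rng (hM.comp (NPC.Poly.fst (NPC.Poly.fst NPC.Poly.id))))
    (NPC.Poly.pair (NPC.Poly.snd (NPC.Poly.fst (NPC.Poly.fst NPC.Poly.id)))
      (NPC.Poly.pair (NPC.Poly.snd (NPC.Poly.fst NPC.Poly.id)) (NPC.Poly.snd NPC.Poly.id)))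

theorem poly_ini {M : α → Mat} (hM : NPC.Poly M) : NPC.Poly (fun a => ini (M a)) :=
  NPC.Poly.pair (NPC.Poly.add (NPC.Poly.length hM) (NPC.Poly.const 1)) (NPC.Poly.pair (NPC.Poly.length hM) (NPC.Poly.const 0))

/-- one round of the dynamic program -/
def roundS (H : Mat × ℕ × ℕ → Bool) (M : Mat) (x : ℕ) (S : List (ℕ × ℕ × ℕ)) :
    List (ℕ × ℕ × ℕ) :=
  ini M :: (cand M).filter (fun c => S.any (fun d => step H M x d c))

theorem states_eq (H : Mat × ℕ × ℕ → Bool) (M : Mat) (x k : ℕ) :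
    states H M x k = (roundS H M x)^[k] [ini M] := by
  induction k with
  | zero => rfl
  | succ k ih => rw [Function.iterate_succ_apply', ← ih]; rfl

theorem poly_states {H : Mat × ℕ × ℕ → Bool} (hH : NPC.Poly H) {M : α → Mat} {x : α → ℕ}
    (hM : NPC.Poly M) (hx : NPC.Poly x) :
    NPC.Poly (fun a => states H (M a) (x a) ((M a).length + 2)) := by
  obtain ⟨r, hr⟩ := (NPC.Poly.cons (poly_ini hM) (poly_cand hM)).sz_le
  have hu : NPC.Poly (fun a => List.replicate ((M a).length + 2) ()) :=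
    UPoly.add (UPoly.length hM) (UPoly.const 2)
  refine (NPC.Poly.iterLen (F := fun a S => roundS H (M a) (x a) S) (s := fun a => [ini (M a)]) hu
    (NPC.Poly.cons (poly_ini hM) (NPC.Poly.const [])) ?_ r ?_).congr ?_
  · refine NPC.Poly.cons (poly_ini (hM.comp (NPC.Poly.fst NPC.Poly.id))) ?_
    refine NPC.Poly.filter (p := fun (y : α × List (ℕ × ℕ × ℕ)) c =>
      y.2.any (fun d => step H (M y.1) (x y.1) d c)) (poly_cand (hM.comp (NPC.Poly.fst NPC.Poly.id))) ?_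
    refine NPC.Poly.any (p := fun (y : (α × List (ℕ × ℕ × ℕ)) × (ℕ × ℕ × ℕ)) d =>
      step H (M y.1.1) (x y.1.1) d y.2) (NPC.Poly.snd (NPC.Poly.fst NPC.Poly.id)) ?_
    exact poly_step hH (hM.comp (NPC.Poly.fst (NPC.Poly.fst (NPC.Poly.fst NPC.Poly.id))))
      (hx.comp (NPC.Poly.fst (NPC.Poly.fst (NPC.Poly.fst NPC.Poly.id)))) (NPC.Poly.snd NPC.Poly.id)
      (NPC.Poly.snd (NPC.Poly.fst NPC.Poly.id))
  · intro a k _
    refine le_trans ?_ (hr a)
    cases k with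
    | zero =>
      have := sz_pos (cand (M a))
      simp only [Function.iterate_zero, _root_.id, sz_list_cons, sz_list_nil]
      omega
    | succ k =>
      rw [Function.iterate_succ_apply', roundS, sz_list_cons, sz_list_cons]
      have := sz_filter_le (fun c => ((fun S => roundS H (M a) (x a) S)^[k] [ini (M a)]).any
        (fun d => step H (M a) (x a) d c)) (cand (M a))
      omega
  · intro a
    rw [states_eq, List.length_replicate]

end aux

theorem foldl_max_le (l : List ℕ) (B : ℕ) : ∀ (x : ℕ), x ≤ B → (∀ s ∈ l, s ≤ B) →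
    l.foldl max x ≤ B := by
  induction l with
  | nil => intro x hx _; exact hx
  | cons s l ih =>
    intro x hx h
    rw [List.foldl_cons]
    exact ih _ (max_le hx (h s (by simp))) (fun t ht => h t (by simp [ht]))

theorem poly_best {H : Mat × ℕ × ℕ → Bool} (hH : Poly H) :
    Poly (fun I : Mat × ℕ × ℕ => best H I.1 I.2.1 I.2.2) := by
  have hM : NPC.Poly (fun I : Mat × ℕ × ℕ => I.1) := NPC.Poly.fst NPC.Poly.id
  have hx : NPC.Poly (fun I : Mat × ℕ × ℕ => I.2.1) := NPC.Poly.fst (NPC.Poly.snd NPC.Poly.id)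
  have hy : NPC.Poly (fun I : Mat × ℕ × ℕ => I.2.2) := NPC.Poly.snd (NPC.Poly.snd NPC.Poly.id)
  have hl : NPC.Poly (fun I : Mat × ℕ × ℕ => (rng I.1).filter
      (fun s => decide ((I.1.length, I.2.2, s) ∈ states H I.1 I.2.1 (I.1.length + 2)))) := by
    refine NPC.Poly.filter (p := fun (I : Mat × ℕ × ℕ) s =>
      decide ((I.1.length, I.2.2, s) ∈ states H I.1 I.2.1 (I.1.length + 2))) (poly_rng hM) ?_
    refine (NPC.Poly.decide_mem
      (NPC.Poly.pair (NPC.Poly.length (hM.comp (NPC.Poly.fst NPC.Poly.id)))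
      (NPC.Poly.pair (hy.comp (NPC.Poly.fst NPC.Poly.id)) (NPC.Poly.snd NPC.Poly.id)))
      (poly_states hH (hM.comp (NPC.Poly.fst NPC.Poly.id))
        (hx.comp (NPC.Poly.fst NPC.Poly.id)))).congr fun a => ?_
    exact decide_eq_decide.2 Iff.rfl
  refine NPC.Poly.foldl (s := fun _ => 0) (F := fun _ s b => max s b) hl (NPC.Poly.const 0)
    (NPC.Poly.max (NPC.Poly.fst (NPC.Poly.snd NPC.Poly.id)) (NPC.Poly.snd (NPC.Poly.snd NPC.Poly.id)))
    (Polynomial.C 4 * Polynomial.X + Polynomial.C 1) ?_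
  intro I k _
  have h1 : (((rng I.1).filter (fun s => decide ((I.1.length, I.2.2, s) ∈
      states H I.1 I.2.1 (I.1.length + 2)))).take k).foldl max 0 ≤ I.1.length := by
    apply foldl_max_le
    · exact Nat.zero_le _
    · intro s hs
      have h2 := List.mem_of_mem_filter (List.mem_of_mem_take hs)
      rw [rng, List.mem_range] at h2
      omega
  have h3 := sz_nat_le ((((rng I.1).filter (fun s => decide ((I.1.length, I.2.2, s) ∈
      states H I.1 I.2.1 (I.1.length + 2)))).take k).foldl max 0)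
  have h4 := NPC.Poly.size_le_self ((((rng I.1).filter (fun s => decide ((I.1.length, I.2.2, s) ∈
      states H I.1 I.2.1 (I.1.length + 2)))).take k).foldl max 0)
  have h5 := length_lt_sz I.1
  have h6 : sz I.1 ≤ sz I := by
    obtain ⟨M, x, y⟩ := I
    simp only [sz_pair]
    omega
  simp only [Polynomial.eval_add, Polynomial.eval_mul, Polynomial.eval_C, Polynomial.eval_X]
  change sz (List.foldl max 0 _) ≤ _
  omega

section ext

variable {α : Type} [TEnc α]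

theorem poly_val {H : Mat × ℕ × ℕ → Bool} (hH : NPC.Poly H) {M : α → Mat} {U : α → List ℕ}
    {v y : α → ℕ} (hM : NPC.Poly M) (hU : NPC.Poly U) (hv : NPC.Poly v) (hy : NPC.Poly y) :
    NPC.Poly (fun a => val H (M a) (U a) (v a) (y a)) := by
  have h1 : NPC.Poly (fun a => ((sub (M a) (v a :: y a :: del2 (U a) (v a) (y a)), 0, 1) :
      Mat × ℕ × ℕ)) :=
    NPC.Poly.pair (poly_sub hM (NPC.Poly.cons hv (NPC.Poly.cons hy (poly_del2 hU hv hy))))
      (NPC.Poly.pair (NPC.Poly.const 0) (NPC.Poly.const 1))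
  have h2 : NPC.Poly (fun a =>
      best H (sub (M a) (v a :: y a :: del2 (U a) (v a) (y a))) 0 1) :=
    (NPC.Poly.comp (g := fun I : Mat × ℕ × ℕ => best H I.1 I.2.1 I.2.2) (poly_best hH)
      h1).congr fun a => rfl
  have h3 : NPC.Poly (fun a => if v a = y a then 1 else
      best H (sub (M a) (v a :: y a :: del2 (U a) (v a) (y a))) 0 1) :=
    NPC.Poly.ite (NPC.Poly.decide_eq hv hy) (NPC.Poly.const 1) h2
  refine h3.congr fun a => ?_
  rw [val]

theorem poly_next {H : Mat × ℕ × ℕ → Bool} (hH : NPC.Poly H) {M : α → Mat} {y : α → ℕ}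
    {s : α → List ℕ × List ℕ × ℕ} (hM : NPC.Poly M) (hy : NPC.Poly y) (hs : NPC.Poly s) :
    NPC.Poly (fun a => next H (M a) (y a) (s a)) := by
  have hs1 : NPC.Poly (fun a => (s a).1) := NPC.Poly.fst hs
  have hs2 : NPC.Poly (fun a => (s a).2.1) := NPC.Poly.fst (NPC.Poly.snd hs)
  have hs3 : NPC.Poly (fun a => (s a).2.2) := NPC.Poly.snd (NPC.Poly.snd hs)
  have f1 : ∀ {β : Type} [TEnc β], NPC.Poly (fun x : α × β => x.1) := fun {β} _ => NPC.Poly.fst NPC.Poly.id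
  have hh : NPC.Poly (fun a => (s a).1.headD 0) :=
    (NPC.Poly.head?_getD hs1 0).congr fun a => by cases (s a).1 <;> rfl
  have hdel : NPC.Poly (fun x : α × ℕ => (s x.1).2.1.filter (fun z => decide (z ≠ x.2))) :=
    NPC.Poly.filter (p := fun (x : α × ℕ) z => decide (z ≠ x.2)) (hs2.comp f1)
      (poly_ne (NPC.Poly.snd NPC.Poly.id) (NPC.Poly.snd (NPC.Poly.fst NPC.Poly.id)))
  have hf : NPC.Poly (fun a => (s a).2.1.filter (fun v => decide (2 ≤ (s a).2.2) &&
      (arc (M a) ((s a).1.headD 0) v &&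
      decide (val H (M a) ((s a).2.1.filter (fun z => decide (z ≠ v))) v (y a) + 1 =
        (s a).2.2)))) := by
    refine NPC.Poly.filter (p := fun a v => decide (2 ≤ (s a).2.2) &&
      (arc (M a) ((s a).1.headD 0) v &&
      decide (val H (M a) ((s a).2.1.filter (fun z => decide (z ≠ v))) v (y a) + 1 =
        (s a).2.2))) hs2 ?_
    refine NPC.Poly.and (NPC.Poly.decide_le (NPC.Poly.const 2) (hs3.comp f1))
      (NPC.Poly.and (poly_arc (hM.comp f1) (hh.comp f1) (NPC.Poly.snd NPC.Poly.id))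
        (NPC.Poly.decide_eq (NPC.Poly.add (poly_val hH (hM.comp f1) hdel (NPC.Poly.snd NPC.Poly.id)
          (hy.comp f1)) (NPC.Poly.const 1)) (hs3.comp f1)))
  refine (NPC.Poly.optCases (h := fun a v => (v :: (s a).1,
    (s a).2.1.filter (fun z => decide (z ≠ v)), (s a).2.2 - 1)) (NPC.Poly.head? hf) hs
    (NPC.Poly.pair (NPC.Poly.cons (NPC.Poly.snd NPC.Poly.id) (hs1.comp f1))
      (NPC.Poly.pair hdel (NPC.Poly.sub (hs3.comp f1) (NPC.Poly.const 1))))).congr fun a => ?_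
  rw [next]
  generalize (List.filter _ (s a).2.1).head? = o
  cases o <;> rfl

end ext

theorem next_size (H : Mat × ℕ × ℕ → Bool) (M : Mat) (y : ℕ) (s : List ℕ × List ℕ × ℕ)
    (B : ℕ) (hB : sz s.2.1 ≤ B) :
    sz (next H M y s).2.1 ≤ B ∧ sz (next H M y s).1 ≤ sz s.1 + (B + 1) ∧
      (next H M y s).2.2 ≤ s.2.2 := by
  unfold next
  split
  · exact ⟨hB, by omega, le_rfl⟩
  · rename_i v hv
    have h1 : v ∈ s.2.1 := List.mem_of_mem_filter (List.mem_of_mem_head? hv)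
    have h2 := sz_le_of_mem h1
    refine ⟨(sz_filter_le _ _).trans hB, ?_, Nat.sub_le _ _⟩
    rw [sz_list_cons]
    omega

theorem next_iter_size (H : Mat × ℕ × ℕ → Bool) (M : Mat) (y : ℕ) (s : List ℕ × List ℕ × ℕ)
    (k : ℕ) : sz ((next H M y)^[k] s).2.1 ≤ sz s.2.1 ∧
      sz ((next H M y)^[k] s).1 ≤ sz s.1 + k * (sz s.2.1 + 1) ∧
      ((next H M y)^[k] s).2.2 ≤ s.2.2 := by
  induction k with
  | zero => simp
  | succ k ih =>
    rw [Function.iterate_succ_apply']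
    obtain ⟨h1, h2, h3⟩ := ih
    obtain ⟨g1, g2, g3⟩ := next_size H M y _ (sz s.2.1) h1
    refine ⟨g1, ?_, g3.trans h3⟩
    rw [Nat.succ_mul]
    omega

theorem poly_extract {H : Mat × ℕ × ℕ → Bool} (hH : Poly H) : Poly (extract H) := by
  have hM : NPC.Poly (fun I : Mat × ℕ × ℕ => I.1) := NPC.Poly.fst NPC.Poly.id
  have hx : NPC.Poly (fun I : Mat × ℕ × ℕ => I.2.1) := NPC.Poly.fst (NPC.Poly.snd NPC.Poly.id)
  have hy : NPC.Poly (fun I : Mat × ℕ × ℕ => I.2.2) := NPC.Poly.snd (NPC.Poly.snd NPC.Poly.id)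
  have ho : NPC.Poly (fun I : Mat × ℕ × ℕ => others I.1 I.2.1) :=
    NPC.Poly.filter (p := fun (I : Mat × ℕ × ℕ) z => decide (z ≠ I.2.1)) (poly_vs hM)
      (poly_ne (NPC.Poly.snd NPC.Poly.id) (hx.comp (NPC.Poly.fst NPC.Poly.id)))
  have hv : NPC.Poly (fun I : Mat × ℕ × ℕ => val H I.1 (others I.1 I.2.1) I.2.1 I.2.2) :=
    poly_val hH hM ho hx hy
  have hs : NPC.Poly (fun I : Mat × ℕ × ℕ => (([I.2.1], others I.1 I.2.1,
      val H I.1 (others I.1 I.2.1) I.2.1 I.2.2) : List ℕ × List ℕ × ℕ)) :=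
    NPC.Poly.pair (NPC.Poly.cons hx (NPC.Poly.const [])) (NPC.Poly.pair ho hv)
  obtain ⟨r, hr⟩ := hs.sz_le
  refine NPC.Poly.ite (NPC.Poly.decide_eq hv (NPC.Poly.const 0)) (NPC.Poly.const none)
    (NPC.Poly.some (NPC.Poly.reverse (NPC.Poly.fst ?_)))
  refine NPC.Poly.iterLen (F := fun (I : Mat × ℕ × ℕ) s => next H I.1 I.2.2 s) hM hs
    (poly_next hH (hM.comp (NPC.Poly.fst NPC.Poly.id)) (hy.comp (NPC.Poly.fst NPC.Poly.id)) (NPC.Poly.snd NPC.Poly.id))
    (r + Polynomial.X * (r + Polynomial.C 1) + r + Polynomial.C 2 * r + Polynomial.C 2) ?_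
  intro I k hk
  obtain ⟨h1, h2, h3⟩ := next_iter_size H I.1 I.2.2 ([I.2.1], others I.1 I.2.1,
      val H I.1 (others I.1 I.2.1) I.2.1 I.2.2) k
  have h4 := hr I
  have h5 := sz_nat_mono_le h3
  have h6 := length_lt_sz I.1
  have h7 : sz I.1 ≤ sz I := by
    obtain ⟨M, x, y⟩ := I
    simp only [sz_pair]
    omega
  have h8 : k ≤ sz I := by omega
  have h9 : k * (sz (others I.1 I.2.1) + 1) ≤ sz I * (r.eval (sz I) + 1) := by
    apply Nat.mul_le_mul h8
    simp only [sz_pair] at h4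
    omega
  simp only [sz_pair] at h4
  have h10 : sz ((next H I.1 I.2.2)^[k] ([I.2.1], others I.1 I.2.1,
      val H I.1 (others I.1 I.2.1) I.2.1 I.2.2)) =
    sz ((next H I.1 I.2.2)^[k] ([I.2.1], others I.1 I.2.1,
      val H I.1 (others I.1 I.2.1) I.2.1 I.2.2)).1 +
    (sz ((next H I.1 I.2.2)^[k] ([I.2.1], others I.1 I.2.1,
      val H I.1 (others I.1 I.2.1) I.2.1 I.2.2)).2.1 +
    sz ((next H I.1 I.2.2)^[k] ([I.2.1], others I.1 I.2.1,
      val H I.1 (others I.1 I.2.1) I.2.1 I.2.2)).2.2 + 1) + 1 := by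
    rw [← sz_pair, ← sz_pair]
  simp only [Polynomial.eval_add, Polynomial.eval_mul, Polynomial.eval_C, Polynomial.eval_X]
  change sz ((next H I.1 I.2.2)^[k] ([I.2.1], others I.1 I.2.1,
      val H I.1 (others I.1 I.2.1) I.2.1 I.2.2)) ≤ _
  rw [h10]
  simp only at h1 h2 h5
  omega

end Pool.Agent.Helper944_LP
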