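import Pool.Agent.Helper944_LP.Defs2

/-!
# Induced subtournaments
-/

namespace Pool.Agent.Helper944_LP

theorem length_sub (M : Mat) (l : List ℕ) : (sub M l).length = l.length := by simp [sub]

theorem arc_sub (M : Mat) (l : List ℕ) {i j : ℕ} (hi : i < l.length) (hj : j < l.length) :
    arc (sub M l) i j = arc M (l.getD i 0) (l.getD j 0) := by
  have h1 : (sub M l).getD i [] = l.map (fun v => arc M (l.getD i 0) v) := by
    simp [sub, List.getD_eq_getElem?_getD, hi]
  have h2 : ∀ u, (l.map (fun v => arc M u v)).getD j false = arc M u (l.getD j 0) := by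
    intro u
    simp [List.getD_eq_getElem?_getD, hj]
  rw [arc, h1, h2]

theorem getD_mem' {l : List ℕ} {i : ℕ} (hi : i < l.length) : l.getD i 0 ∈ l := by
  rw [List.getD_eq_getElem _ _ hi]; exact List.getElem_mem hi

theorem getD_inj' {l : List ℕ} (hl : l.Nodup) {i j : ℕ} (hi : i < l.length) (hj : j < l.length) :
    l.getD i 0 = l.getD j 0 ↔ i = j := by
  rw [List.getD_eq_getElem _ _ hi, List.getD_eq_getElem _ _ hj]
  exact hl.getElem_inj_iff

theorem getD_idxOf' {l : List ℕ} {x : ℕ} (hx : x ∈ l) : l.getD (l.idxOf x) 0 = x := by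
  rw [List.getD_eq_getElem _ _ (List.idxOf_lt_length_iff.2 hx)]
  exact List.getElem_idxOf _

theorem isTour_sub {M : Mat} (hM : IsTour M) {l : List ℕ} (hl : l.Nodup)
    (hl' : ∀ v ∈ l, v < M.length) : IsTour (sub M l) := by
  refine ⟨?_, ?_⟩
  · intro r hr
    rw [length_sub]
    simp only [sub, List.mem_map] at hr
    obtain ⟨u, -, rfl⟩ := hr
    simp
  · intro u hu v hv
    rw [length_sub] at hu hv
    rw [arc_sub M l hu hv, arc_sub M l hv hu,
      hM.2 _ (hl' _ (getD_mem' hu)) _ (hl' _ (getD_mem' hv)), ne_eq, getD_inj' hl hu hv]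

/-- A path of the induced subdigraph gives a path of the digraph. -/
theorem isPath_down {M : Mat} {L : List ℕ} (hL : L.Nodup) (hL' : ∀ v ∈ L, v < M.length)
    {i j : ℕ} {l : List ℕ} (h : IsPath (sub M L) i j l) :
    IsPath M (L.getD i 0) (L.getD j 0) (l.map (fun k => L.getD k 0)) ∧
      ∀ z ∈ l.map (fun k => L.getD k 0), z ∈ L := by
  have hlt : ∀ v ∈ l, v < L.length := fun v hv => by
    have := h.lt v hv
    rwa [length_sub] at this
  have hmem : ∀ z ∈ l.map (fun k => L.getD k 0), z ∈ L := by
    intro z hz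
    obtain ⟨k, hk, rfl⟩ := List.mem_map.1 hz
    exact getD_mem' (hlt k hk)
  refine ⟨⟨?_, fun v hv => hL' _ (hmem v hv), ?_, ?_, ?_⟩, hmem⟩
  · exact h.nodup.map_on (fun a ha b hb hab => (getD_inj' hL (hlt a ha) (hlt b hb)).1 hab)
  · rw [List.isChain_map]
    refine h.chain.imp_of_mem_imp ?_
    intro a b ha hb hab
    rwa [arc_sub M L (hlt a ha) (hlt b hb)] at hab
  · rw [List.head?_map, h.head]; rfl
  · rw [List.getLast?_map, h.last]; rfl

/-- A path of the digraph inside `L` gives a path of the induced subdigraph. -/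
theorem isPath_up {M : Mat} {L : List ℕ} {x y : ℕ} {l : List ℕ} (h : IsPath M x y l)
    (hl : ∀ z ∈ l, z ∈ L) :
    IsPath (sub M L) (L.idxOf x) (L.idxOf y) (l.map (fun k => L.idxOf k)) := by
  refine ⟨?_, ?_, ?_, ?_, ?_⟩
  · exact h.nodup.map_on (fun a ha b _ hab => (List.idxOf_inj (hl a ha)).1 hab)
  · intro v hv
    obtain ⟨k, hk, rfl⟩ := List.mem_map.1 hv
    rw [length_sub]
    exact List.idxOf_lt_length_iff.2 (hl k hk)
  · rw [List.isChain_map]
    refine h.chain.imp_of_mem_imp ?_
    intro a b ha hb hab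
    rw [arc_sub M L (List.idxOf_lt_length_iff.2 (hl a ha)) (List.idxOf_lt_length_iff.2 (hl b hb)),
      getD_idxOf' (hl a ha), getD_idxOf' (hl b hb)]
    exact hab
  · rw [List.head?_map, h.head]; rfl
  · rw [List.getLast?_map, h.last]; rfl

theorem correct_of_all {H : Mat × ℕ × ℕ → Bool} (hH : CorrectAll H) {M : Mat} (hM : IsTour M) :
    Correct H M := by
  intro p q J hn hlt
  have hpq : q ≠ p := by
    intro h
    subst h
    simp at hn
  have hidxp : (p :: q :: J).idxOf p = 0 := by simp
  have hidxq : (p :: q :: J).idxOf q = 1 := by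
    rw [List.idxOf_cons_ne _ (Ne.symm hpq)]
    simp
  rw [hH]
  constructor
  · rintro ⟨-, -, -, -, l, hl, hlen⟩
    dsimp only at hl hlen
    obtain ⟨h1, h2⟩ := isPath_down hn hlt hl
    rw [length_sub] at hlen
    refine ⟨l.map (fun k => (p :: q :: J).getD k 0), ?_, h1.chain, ?_, ?_⟩
    · have hs : l.map (fun k => (p :: q :: J).getD k 0) ⊆ (p :: q :: J) := h2
      refine (h1.nodup.subperm hs).perm_of_length_le ?_
      rw [List.length_map, hlen]
    · rw [h1.head]; rfl
    · rw [h1.last]; rfl
  · rintro ⟨l, hperm, hch, hhead, hlast⟩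
    have hmem : ∀ z ∈ l, z ∈ p :: q :: J := fun z hz => hperm.subset hz
    have hp : IsPath M p q l :=
      ⟨hperm.nodup_iff.2 hn, fun v hv => hlt _ (hmem v hv), hch, hhead, hlast⟩
    have h3 := isPath_up hp hmem
    rw [hidxp, hidxq] at h3
    refine ⟨isTour_sub hM hn hlt, ?_, ?_, ?_, _, h3, ?_⟩
    · show 0 < (sub M (p :: q :: J)).length
      rw [length_sub]; simp
    · show 1 < (sub M (p :: q :: J)).length
      rw [length_sub]; simp
    · simp
    · show _ = (sub M (p :: q :: J)).length
      rw [length_sub, List.length_map, hperm.length_eq]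

/-- `best_spec` is proved in another job; here it is a hypothesis. -/
theorem val_spec_of {H : Mat × ℕ × ℕ → Bool} (hH : CorrectAll H)
    (best_spec : ∀ (M : Mat) (x y : ℕ), IsTour M → Correct H M → x < M.length → y < M.length →
      (∀ l, IsPath M x y l → l.length ≤ best H M x y) ∧
      (0 < best H M x y → ∃ l, IsPath M x y l ∧ l.length = best H M x y))
    {M : Mat} (hM : IsTour M)
    {U : List ℕ} {v y : ℕ} (hU : (v :: U).Nodup) (hU' : ∀ z ∈ v :: U, z < M.length)
    (hy : y ∈ v :: U) :
    (∀ l, IsPath M v y l → (∀ z ∈ l, z ∈ v :: U) → l.length ≤ val H M U v y) ∧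
      (0 < val H M U v y → ∃ l, IsPath M v y l ∧ (∀ z ∈ l, z ∈ v :: U) ∧
        l.length = val H M U v y) := by
  by_cases hvy : v = y
  · subst hvy
    have hval : val H M U v v = 1 := by simp [val]
    rw [hval]
    refine ⟨?_, fun _ => ⟨[v], ⟨by simp, by simpa using hU' v (by simp), by simp, by simp, by simp⟩,
      by simp, by simp⟩⟩
    intro l hl _
    have hne : l ≠ [] := by
      rintro rfl
      have := hl.head
      simp at this
    obtain ⟨a, t, rfl⟩ := List.exists_cons_of_ne_nil hne
    have ha : a = v := by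
      have := hl.head
      simpa using this
    subst ha
    rcases List.eq_nil_or_concat t with rfl | ⟨t', b, rfl⟩
    · simp
    · exfalso
      have hb : b = a := by
        have h1 := hl.last
        rw [List.concat_eq_append, ← List.cons_append, List.getLast?_append] at h1
        simpa using h1
      subst hb
      have := hl.nodup
      simp at this
  · have hyU : y ∈ U := by
      rcases List.mem_cons.1 hy with h | h
      · exact absurd h.symm hvy
      · exact h
    have hval : val H M U v y = best H (sub M (v :: y :: del2 U v y)) 0 1 := by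
      simp [val, hvy]
    rw [hval]
    set L := v :: y :: del2 U v y with hL
    have hLmem : ∀ z, z ∈ L ↔ z ∈ v :: U := by
      intro z
      simp only [hL, del2, List.mem_cons, List.mem_filter, Bool.and_eq_true, decide_eq_true_eq]
      constructor
      · rintro (h | h | h)
        · exact Or.inl h
        · exact Or.inr (h ▸ hyU)
        · exact Or.inr h.1
      · rintro (h | h)
        · exact Or.inl h
        · by_cases h1 : z = v
          · exact Or.inl h1
          · by_cases h2 : z = y
            · exact Or.inr (Or.inl h2)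
            · exact Or.inr (Or.inr ⟨h, h1, h2⟩)
    have hLn : L.Nodup := by
      rw [hL, List.nodup_cons, List.nodup_cons]
      refine ⟨?_, ?_, ?_⟩
      · simp [del2, hvy]
      · simp [del2]
      · exact (List.nodup_cons.1 hU).2.filter _
    have hLlt : ∀ z ∈ L, z < M.length := fun z hz => hU' z ((hLmem z).1 hz)
    have hidxv : L.idxOf v = 0 := by simp [hL]
    have hidxy : L.idxOf y = 1 := by
      rw [hL, List.idxOf_cons_ne _ hvy]
      simp
    have hT := isTour_sub hM hLn hLlt
    have h0 : 0 < (sub M L).length := by rw [length_sub, hL]; simp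
    have h1 : 1 < (sub M L).length := by rw [length_sub, hL]; simp
    obtain ⟨hA, hB⟩ := best_spec (sub M L) 0 1 hT (correct_of_all hH hT) h0 h1
    refine ⟨?_, ?_⟩
    · intro l hl hlm
      have h3 := isPath_up hl (fun z hz => (hLmem z).2 (hlm z hz))
      rw [hidxv, hidxy] at h3
      have := hA _ h3
      rwa [List.length_map] at this
    · intro hpos
      obtain ⟨l, hl, hlen⟩ := hB hpos
      obtain ⟨h3, h4⟩ := isPath_down hLn hLlt hl
      refine ⟨_, h3, fun z hz => (hLmem z).1 (h4 z hz), ?_⟩
      rw [List.length_map, hlen]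

end Pool.Agent.Helper944_LP
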