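import Pool.Agent.Helper944_LP.Sound
import Pool.Agent.Helper944_LP.Complete
import Pool.Agent.Helper944_LP.Sub
import Pool.Agent.Helper944_LP.Extract
import Pool.Agent.Helper944_LP.PolyPart

/-!
# Longest paths between two prescribed vertices in tournaments: the reduction to Hamiltonian paths
-/

namespace Pool.Agent.Helper944_LP

open Pool.Agent.NPC

/-- If `H` decides the Hamiltonian `(x,y)`-path problem for tournaments, then `extract H` finds a
longest `(x,y)`-path. -/
theorem extract_spec {H : Mat × ℕ × ℕ → Bool} (hH : CorrectAll H) {M : Mat} (hM : IsTour M)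
    {x y : ℕ} (hx : x < M.length) (hy : y < M.length) :
    match extract H (M, x, y) with
    | none => ¬ ∃ l, IsPath M x y l
    | some l => IsPath M x y l ∧ ∀ l', IsPath M x y l' → l'.length ≤ l.length :=
  extract_spec_of hM (fun _ _ _ hU hU' hy' => val_spec_of hH
    (fun _ _ _ hM' hC hx' hy'' => best_spec_of hM' hC hx' hy''
      (fun _ hP hmax => complete hM' hC hP hmax)) hM hU hU' hy') hx hy

/-- The reduction: a polynomial-time decision procedure for Hamiltonian `(x,y)`-paths gives a
polynomial-time procedure for longest `(x,y)`-paths. -/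
theorem longest_of_ham {H : Mat × ℕ × ℕ → Bool} (hp : Poly H) (hH : CorrectAll H) :
    ∃ F : Mat × ℕ × ℕ → Option (List ℕ), Poly F ∧
      ∀ (M : Mat) (x y : ℕ), IsTour M → x < M.length → y < M.length →
        match F (M, x, y) with
        | none => ¬ ∃ l, IsPath M x y l
        | some l => IsPath M x y l ∧ ∀ l', IsPath M x y l' → l'.length ≤ l.length :=
  ⟨extract H, poly_extract hp, fun _ _ _ hM hx hy => extract_spec hH hM hx hy⟩

end Pool.Agent.Helper944_LP
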