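import Mathlib

/-!
# Longest paths between two prescribed vertices in tournaments: definitions

Vertices of a digraph given by its adjacency matrix `M` are the numbers `< M.length`.
-/

namespace Pool.Agent.Helper944_LP

/-- A 0/1 matrix, as a list of rows. -/
abbrev Mat := List (List Bool)

/-- The arc relation of the digraph with adjacency matrix `M`. -/
def arc (M : Mat) (u v : ℕ) : Bool := (M.getD u []).getD v false

/-- `M` is the adjacency matrix of a tournament: it is square and for all vertices `u`, `v`
there is an arc from `u` to `v` iff `u ≠ v` and there is no arc from `v` to `u`. -/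
def IsTour (M : Mat) : Prop :=
  (∀ r ∈ M, r.length = M.length) ∧
    ∀ u < M.length, ∀ v < M.length, (arc M u v = true ↔ u ≠ v ∧ arc M v u = false)

/-- `l` is the list of the vertices of a directed path from `x` to `y`. -/
structure IsPath (M : Mat) (x y : ℕ) (l : List ℕ) : Prop where
  nodup : l.Nodup
  lt : ∀ v ∈ l, v < M.length
  chain : l.IsChain (fun u v => arc M u v = true)
  head : l.head? = some x
  last : l.getLast? = some y

/-- All vertices. -/
def vs (M : Mat) : List ℕ := List.range M.length

/-- Out-neighbours of `w`; for `w = M.length` (top) all vertices, for larger `w` none. -/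
def up (M : Mat) (w : ℕ) : List ℕ :=
  if w < M.length then (vs M).filter (fun v => arc M w v)
  else if w = M.length then vs M else []

/-- Closed out-neighbourhood of `u`; for larger `u` (bottom) nothing. For `u = M.length` the value is
a dummy. -/
def low (M : Mat) (u : ℕ) : List ℕ :=
  if u < M.length then u :: up M u else if u = M.length then [u] else []

/-- The adjacency matrix of the subdigraph induced by the list `l` (in this order). -/
def sub (M : Mat) (l : List ℕ) : Mat := l.map (fun u => l.map (fun v => arc M u v))

/-- Number of out-neighbours of `v` in `U`. -/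
def deg (M : Mat) (U : List ℕ) (v : ℕ) : ℕ := (U.filter (fun z => arc M v z)).length

/-- The vertices of `U` whose out-degree in `U` is in `[a, b)`. -/
def band (M : Mat) (U : List ℕ) (a b : ℕ) : List ℕ :=
  U.filter (fun v => decide (a ≤ deg M U v) && decide (deg M U v < b))

/-- `Z` without `p` and `q`. -/
def del2 (Z : List ℕ) (p q : ℕ) : List ℕ := Z.filter (fun v => decide (v ≠ p) && decide (v ≠ q))

/-- Number of rows of the matrix plus one, as a list `0,…,n`. -/
def rng (M : Mat) : List ℕ := List.range (M.length + 1)

/-- The oracle `H` is asked about the pair consisting of a matrix and two of its vertices.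
`piece H M Z p q s`: the oracle certifies a path from `p` to `q` with `s` vertices inside `Z`. -/
def piece (H : Mat × ℕ × ℕ → Bool) (M : Mat) (Z : List ℕ) (p q s : ℕ) : Bool :=
  (decide (p = q) && decide (s = 1)) ||
  (decide (p ≠ q) && decide (s = 3) && Z.any (fun r => arc M p r && arc M r q)) ||
  (decide (p ≠ q) && (rng M).any (fun a => (rng M).any (fun b =>
    decide (s = (band M (del2 Z p q) a b).length + 2) &&
      H (sub M (p :: q :: band M (del2 Z p q) a b), 0, 1))))

/-- The set `up w` minus `low u`. -/
def gap (M : Mat) (u w : ℕ) : List ℕ := (up M w).filter (fun v => decide (v ∉ low M u))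

/-- One step of the dynamic program, from the state `d = (u, q', len')` to `c = (w, q, len)`.
The last component of a state is the number of vertices collected so far, the middle component
the last vertex so far (`M.length` if there is none so far). -/
def step (H : Mat × ℕ × ℕ → Bool) (M : Mat) (x : ℕ) (d c : ℕ × ℕ × ℕ) : Bool :=
  (low M d.1).all (fun v => decide (v ∈ up M c.1)) &&
  ((decide (c.2.1 = d.2.1) && decide (c.2.2 = d.2.2)) ||
    (decide (c.2.1 ∈ gap M d.1 c.1) &&
      (gap M d.1 c.1).any (fun p =>
        ((decide (d.2.1 = M.length) && decide (p = x)) ||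
          (decide (d.2.1 ≠ M.length) && arc M d.2.1 p)) &&
        (rng M).any (fun s => decide (c.2.2 = d.2.2 + s) &&
          piece H M (gap M d.1 c.1) p c.2.1 s))))

/-- All candidate states. -/
def cand (M : Mat) : List (ℕ × ℕ × ℕ) :=
  (List.range (M.length + 2)).flatMap (fun w => (rng M).flatMap (fun q => (rng M).map
    (fun s => (w, q, s))))

/-- The initial state: bottom, no vertex so far. -/
def ini (M : Mat) : ℕ × ℕ × ℕ := (M.length + 1, M.length, 0)

/-- The states reachable in at most `k` steps. -/
def states (H : Mat × ℕ × ℕ → Bool) (M : Mat) (x : ℕ) : ℕ → List (ℕ × ℕ × ℕ)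
  | 0 => [ini M]
  | k + 1 => ini M :: (cand M).filter (fun c => (states H M x k).any (fun d => step H M x d c))

/-- The length of a longest path from `x` to `y` (number of vertices; `0` if there is none), as
computed with the oracle `H`. -/
def best (H : Mat × ℕ × ℕ → Bool) (M : Mat) (x y : ℕ) : ℕ :=
  ((rng M).filter (fun s => decide ((M.length, y, s) ∈ states H M x (M.length + 2)))).foldl max 0

/-- The oracle is correct for the induced subtournaments of `M`. -/
def Correct (H : Mat × ℕ × ℕ → Bool) (M : Mat) : Prop :=
  ∀ p q : ℕ, ∀ J : List ℕ, (p :: q :: J).Nodup → (∀ v ∈ p :: q :: J, v < M.length) →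
    (H (sub M (p :: q :: J), 0, 1) = true ↔
      ∃ l : List ℕ, l.Perm (p :: q :: J) ∧ l.IsChain (fun u v => arc M u v = true) ∧
        l.head? = some p ∧ l.getLast? = some q)

end Pool.Agent.Helper944_LP
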