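import Pool.Agent.Helper944_LP.Defs
import Pool.Agent.NPC.Num
import Pool.Agent.NPC.Dec

/-!
# Longest paths between two prescribed vertices in tournaments: problems and extraction of the path
-/

namespace Pool.Agent.Helper944_LP

open Pool.Agent.NPC

/-- The Hamiltonian `(x,y)`-path problem for tournaments: the input consists of the adjacency matrix
of a tournament and two distinct vertices `x`, `y`; is there a path from `x` to `y` through all
vertices? -/
def HamP (I : Mat × ℕ × ℕ) : Prop :=
  IsTour I.1 ∧ I.2.1 < I.1.length ∧ I.2.2 < I.1.length ∧ I.2.1 ≠ I.2.2 ∧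
    ∃ l, IsPath I.1 I.2.1 I.2.2 l ∧ l.length = I.1.length

/-- The oracle `H` decides the Hamiltonian `(x,y)`-path problem for tournaments. -/
def CorrectAll (H : Mat × ℕ × ℕ → Bool) : Prop := ∀ I, H I = true ↔ HamP I

/-- The number of vertices of a longest path from `v` to `y` inside `{v} ∪ U`, as computed with the
oracle `H`. -/
def val (H : Mat × ℕ × ℕ → Bool) (M : Mat) (U : List ℕ) (v y : ℕ) : ℕ :=
  if v = y then 1 else best H (sub M (v :: y :: del2 U v y)) 0 1

/-- One step of the construction of a longest path.  A state `(acc, U, r)` consists of the reversed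
path constructed so far, the list of the remaining vertices, and the number of vertices still to come
including the current one (the head of `acc`). -/
def next (H : Mat × ℕ × ℕ → Bool) (M : Mat) (y : ℕ) (s : List ℕ × List ℕ × ℕ) :
    List ℕ × List ℕ × ℕ :=
  match (s.2.1.filter (fun v => decide (2 ≤ s.2.2) && (arc M (s.1.headD 0) v &&
      decide (val H M (s.2.1.filter (fun z => decide (z ≠ v))) v y + 1 = s.2.2)))).head? with
  | none => s
  | some v => (v :: s.1, s.2.1.filter (fun z => decide (z ≠ v)), s.2.2 - 1)

/-- The vertices other than `x`. -/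
def others (M : Mat) (x : ℕ) : List ℕ := (vs M).filter (fun z => decide (z ≠ x))

/-- A longest path from `x` to `y`, if there is any path from `x` to `y`. -/
def extract (H : Mat × ℕ × ℕ → Bool) (I : Mat × ℕ × ℕ) : Option (List ℕ) :=
  if val H I.1 (others I.1 I.2.1) I.2.1 I.2.2 = 0 then none
  else some (((next H I.1 I.2.2)^[I.1.length]
    ([I.2.1], others I.1 I.2.1, val H I.1 (others I.1 I.2.1) I.2.1 I.2.2)).1.reverse)

end Pool.Agent.Helper944_LP
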