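import Pool.Agent.Helper944_LP.Defs

/-!
# Soundness of the dynamic program for longest paths in tournaments
-/

namespace Pool.Agent.Helper944_LP

theorem arc_self {M : Mat} (hM : IsTour M) {v : ℕ} (hv : v < M.length) : arc M v v ≠ true :=
  fun h => ((hM.2 v hv v hv).1 h).1 rfl

theorem up_lt {M : Mat} {w v : ℕ} (h : v ∈ up M w) : v < M.length := by
  unfold up at h
  split_ifs at h with h1 h2
  · rw [List.mem_filter] at h
    exact List.mem_range.1 h.1
  · exact List.mem_range.1 h
  · exact absurd h List.not_mem_nil

theorem up_nodup (M : Mat) (w : ℕ) : (up M w).Nodup := by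
  unfold up
  split_ifs with h1 h2
  · exact List.Nodup.filter _ List.nodup_range
  · exact List.nodup_range
  · exact List.nodup_nil

theorem up_sub_low {M : Mat} {u w : ℕ} (h : ∀ v ∈ low M u, v ∈ up M w) {v : ℕ}
    (hv : v ∈ up M u) : v ∈ low M u := by
  rcases lt_trichotomy u M.length with h1 | h1 | h1
  · unfold low
    rw [if_pos h1]
    exact List.mem_cons_of_mem _ hv
  · have h2 : u ∈ low M u := by
      unfold low
      rw [if_neg (by omega), if_pos h1]
      exact List.mem_singleton_self u
    have h3 := up_lt (h u h2)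
    omega
  · unfold up at hv
    rw [if_neg (by omega), if_neg (by omega)] at hv
    exact absurd hv List.not_mem_nil

theorem piece_path {H : Mat × ℕ × ℕ → Bool} {M : Mat} (hM : IsTour M) (hH : Correct H M)
    {Z : List ℕ} (hZ : Z.Nodup) (hZn : ∀ v ∈ Z, v < M.length) {p q s : ℕ} (hp : p ∈ Z)
    (hq : q ∈ Z) (h : piece H M Z p q s = true) :
    ∃ l : List ℕ, l.Nodup ∧ (∀ v ∈ l, v ∈ Z) ∧ l.IsChain (fun u v => arc M u v = true) ∧
      l.head? = some p ∧ l.getLast? = some q ∧ l.length = s := by
  unfold piece at h
  rw [Bool.or_eq_true, Bool.or_eq_true] at h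
  rcases h with (h | h) | h
  · rw [Bool.and_eq_true, decide_eq_true_iff, decide_eq_true_iff] at h
    obtain ⟨h1, h2⟩ := h
    subst h1 h2
    refine ⟨[p], List.nodup_singleton p, ?_, List.isChain_singleton p, rfl, rfl, rfl⟩
    intro v hv
    rw [List.mem_singleton] at hv
    rw [hv]; exact hp
  · rw [Bool.and_eq_true, Bool.and_eq_true, decide_eq_true_iff, decide_eq_true_iff,
      List.any_eq_true] at h
    obtain ⟨⟨h1, h2⟩, r, hr, h3⟩ := h
    rw [Bool.and_eq_true] at h3
    have hpr : p ≠ r := by
      rintro rfl
      exact arc_self hM (hZn _ hp) h3.1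
    have hrq : r ≠ q := by
      rintro rfl
      exact arc_self hM (hZn _ hr) h3.2
    refine ⟨[p, r, q], ?_, ?_, ?_, rfl, rfl, h2.symm⟩
    · rw [List.nodup_cons, List.nodup_cons, List.mem_cons, List.mem_singleton, List.mem_singleton]
      refine ⟨?_, hrq, List.nodup_singleton q⟩
      rintro (h4 | h4)
      · exact hpr h4
      · exact h1 h4
    · intro v hv
      rw [List.mem_cons, List.mem_cons, List.mem_singleton] at hv
      rcases hv with rfl | rfl | rfl
      · exact hp
      · exact hr
      · exact hq
    · exact List.IsChain.cons_cons h3.1 (List.IsChain.cons_cons h3.2 (List.isChain_singleton q))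
  · rw [Bool.and_eq_true, decide_eq_true_iff, List.any_eq_true] at h
    obtain ⟨h1, a, _, h⟩ := h
    rw [List.any_eq_true] at h
    obtain ⟨b, _, h⟩ := h
    rw [Bool.and_eq_true, decide_eq_true_iff] at h
    obtain ⟨h2, h3⟩ := h
    have hband : ∀ v ∈ band M (del2 Z p q) a b, v ∈ Z ∧ v ≠ p ∧ v ≠ q := by
      intro v hv
      unfold band del2 at hv
      rw [List.mem_filter, List.mem_filter, Bool.and_eq_true, decide_eq_true_iff,
        decide_eq_true_iff] at hv
      exact ⟨hv.1.1, hv.1.2.1, hv.1.2.2⟩
    have hmem : ∀ v ∈ p :: q :: band M (del2 Z p q) a b, v ∈ Z := by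
      intro v hv
      rw [List.mem_cons, List.mem_cons] at hv
      rcases hv with rfl | rfl | hv
      · exact hp
      · exact hq
      · exact (hband v hv).1
    have hnd : (p :: q :: band M (del2 Z p q) a b).Nodup := by
      rw [List.nodup_cons, List.nodup_cons, List.mem_cons]
      refine ⟨?_, fun h => (hband q h).2.2 rfl, ?_⟩
      · rintro (h4 | h4)
        · exact h1 h4
        · exact (hband p h4).2.1 rfl
      · unfold band del2
        exact List.Nodup.filter _ (List.Nodup.filter _ hZ)
    obtain ⟨l, hl1, hl2, hl3, hl4⟩ := (hH p q _ hnd fun v hv => hZn v (hmem v hv)).1 h3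
    refine ⟨l, hl1.nodup_iff.2 hnd, fun v hv => hmem v (hl1.mem_iff.1 hv), hl2, hl3, hl4, ?_⟩
    rw [hl1.length_eq, h2]
    rfl

theorem gap_mem {M : Mat} {u w v : ℕ} (h : v ∈ gap M u w) : v ∈ up M w ∧ v ∉ low M u := by
  unfold gap at h
  rw [List.mem_filter, decide_eq_true_iff] at h
  exact h

theorem states_inv {H : Mat × ℕ × ℕ → Bool} {M : Mat} {x : ℕ} (hM : IsTour M)
    (hH : Correct H M) (k : ℕ) : ∀ c : ℕ × ℕ × ℕ, c ∈ states H M x k →
      (c.2.1 = M.length ∧ c.2.2 = 0) ∨
      (c.2.1 ≠ M.length ∧ ∃ l, IsPath M x c.2.1 l ∧ l.length = c.2.2 ∧ ∀ v ∈ l, v ∈ up M c.1) := by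
  induction k with
  | zero =>
    intro c hc
    unfold states at hc
    rw [List.mem_singleton] at hc
    subst hc
    exact Or.inl ⟨rfl, rfl⟩
  | succ k ih =>
    intro c hc
    unfold states at hc
    rw [List.mem_cons] at hc
    rcases hc with hc | hc
    · subst hc
      exact Or.inl ⟨rfl, rfl⟩
    · rw [List.mem_filter, List.any_eq_true] at hc
      obtain ⟨_, d, hd, hstep⟩ := hc
      have hd' := ih d hd
      unfold step at hstep
      rw [Bool.and_eq_true, Bool.or_eq_true, List.all_eq_true] at hstep
      obtain ⟨hlow, hstep⟩ := hstep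
      have hlow' : ∀ v ∈ low M d.1, v ∈ up M c.1 := fun v hv =>
        of_decide_eq_true (hlow v hv)
      rcases hstep with hstep | hstep
      · rw [Bool.and_eq_true, decide_eq_true_iff, decide_eq_true_iff] at hstep
        rw [hstep.1, hstep.2]
        rcases hd' with hd' | ⟨hd1, l, hl, hl2, hl3⟩
        · exact Or.inl hd'
        · exact Or.inr ⟨hd1, l, hl, hl2, fun v hv => hlow' v (up_sub_low hlow' (hl3 v hv))⟩
      · rw [Bool.and_eq_true, decide_eq_true_iff, List.any_eq_true] at hstep
        obtain ⟨hq, p, hp, hstep⟩ := hstep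
        rw [Bool.and_eq_true, List.any_eq_true] at hstep
        obtain ⟨hjoin, s, _, hstep⟩ := hstep
        rw [Bool.and_eq_true, decide_eq_true_iff] at hstep
        obtain ⟨hlen, hpiece⟩ := hstep
        have hZ : (gap M d.1 c.1).Nodup := by
          unfold gap
          exact List.Nodup.filter _ (up_nodup M c.1)
        obtain ⟨l2, h1, h2, h3, h4, h5, h6⟩ := piece_path hM hH hZ
          (fun v hv => up_lt (gap_mem hv).1) hp hq hpiece
        have hqn : c.2.1 < M.length := up_lt (gap_mem hq).1
        refine Or.inr ⟨hqn.ne, ?_⟩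
        rw [Bool.or_eq_true, Bool.and_eq_true, Bool.and_eq_true, decide_eq_true_iff,
          decide_eq_true_iff, decide_eq_true_iff] at hjoin
        rcases hjoin with ⟨hj1, hj2⟩ | ⟨hj1, hj2⟩
        · rcases hd' with hd' | hd'
          · subst hj2
            refine ⟨l2, ⟨h1, fun v hv => up_lt (gap_mem (h2 v hv)).1, h3, h4, h5⟩, ?_,
              fun v hv => (gap_mem (h2 v hv)).1⟩
            rw [h6, hlen, hd'.2, Nat.zero_add]
          · exact absurd hj1 hd'.1
        · rcases hd' with hd' | ⟨_, l, hl, hl2, hl3⟩
          · exact absurd hd'.1 hj1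
          · refine ⟨l ++ l2, ⟨?_, ?_, ?_, ?_, ?_⟩, ?_, ?_⟩
            · refine List.Nodup.append hl.nodup h1 ?_
              intro v hv hv2
              exact (gap_mem (h2 v hv2)).2 (up_sub_low hlow' (hl3 v hv))
            · intro v hv
              rw [List.mem_append] at hv
              rcases hv with hv | hv
              · exact hl.lt v hv
              · exact up_lt (gap_mem (h2 v hv)).1
            · refine List.IsChain.append hl.chain h3 ?_
              intro a ha b hb
              rw [hl.last, Option.mem_some_iff] at ha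
              rw [h4, Option.mem_some_iff] at hb
              rw [← ha, ← hb]
              exact hj2
            · rw [List.head?_append, hl.head]
              rfl
            · rw [List.getLast?_append, h5]
              rfl
            · rw [List.length_append, hl2, h6, hlen]
            · intro v hv
              rw [List.mem_append] at hv
              rcases hv with hv | hv
              · exact hlow' v (up_sub_low hlow' (hl3 v hv))
              · exact (gap_mem (h2 v hv)).1

theorem sound {H : Mat × ℕ × ℕ → Bool} {M : Mat} {x y s : ℕ} (hM : IsTour M) (hH : Correct H M)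
    (hx : x < M.length) (hy : y < M.length) (k : ℕ) (h : (M.length, y, s) ∈ states H M x k) :
    ∃ l, IsPath M x y l ∧ l.length = s := by
  have _ := hx
  rcases states_inv hM hH k _ h with h1 | ⟨_, l, h1, h2, _⟩
  · exact absurd h1.1 hy.ne
  · exact ⟨l, h1, h2⟩

theorem foldl_max_ge (l : List ℕ) (a : ℕ) : a ≤ l.foldl max a ∧ ∀ s ∈ l, s ≤ l.foldl max a := by
  induction l generalizing a with
  | nil => exact ⟨le_rfl, fun s hs => absurd hs List.not_mem_nil⟩
  | cons b l ih =>
    rw [List.foldl_cons]
    refine ⟨(le_max_left a b).trans (ih _).1, ?_⟩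
    intro s hs
    rw [List.mem_cons] at hs
    rcases hs with rfl | hs
    · exact (le_max_right a s).trans (ih _).1
    · exact (ih _).2 s hs

theorem foldl_max_mem (l : List ℕ) (a : ℕ) : l.foldl max a = a ∨ l.foldl max a ∈ l := by
  induction l generalizing a with
  | nil => exact Or.inl rfl
  | cons b l ih =>
    rw [List.foldl_cons]
    rcases ih (max a b) with h | h
    · rw [h]
      rcases le_total a b with hab | hab
      · right
        rw [max_eq_right hab]
        exact List.mem_cons_self
      · left
        exact max_eq_left hab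
    · exact Or.inr (List.mem_cons_of_mem _ h)

theorem path_length_le {M : Mat} {x y : ℕ} {l : List ℕ} (hl : IsPath M x y l) :
    l.length ≤ M.length := by
  have h1 : l ⊆ List.range M.length := fun v hv => List.mem_range.2 (hl.lt v hv)
  have h2 := (List.subperm_of_subset hl.nodup h1).length_le
  rwa [List.length_range] at h2

theorem best_spec_of {H : Mat × ℕ × ℕ → Bool} {M : Mat} {x y : ℕ} (hM : IsTour M)
    (hH : Correct H M) (hx : x < M.length) (hy : y < M.length)
    (complete : ∀ P, IsPath M x y P → (∀ l, IsPath M x y l → l.length ≤ P.length) →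
      (M.length, y, P.length) ∈ states H M x (M.length + 2)) :
    (∀ l, IsPath M x y l → l.length ≤ best H M x y) ∧
      (0 < best H M x y → ∃ l, IsPath M x y l ∧ l.length = best H M x y) := by
  constructor
  · intro l hl
    -- a path of maximal length
    obtain ⟨P, hP, hmax⟩ : ∃ P, IsPath M x y P ∧ ∀ l, IsPath M x y l → l.length ≤ P.length := by
      classical
      have hex : ∃ m, ∃ P, IsPath M x y P ∧ M.length - P.length = m := ⟨_, l, hl, rfl⟩
      obtain ⟨P, hP, hPm⟩ := Nat.find_spec hex
      refine ⟨P, hP, fun l' hl' => ?_⟩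
      have h1 := Nat.find_min' hex ⟨l', hl', rfl⟩
      have h2 := path_length_le hl'
      have h3 := path_length_le hP
      omega
    refine (hmax l hl).trans ?_
    unfold best
    refine (foldl_max_ge _ 0).2 _ ?_
    rw [List.mem_filter, decide_eq_true_iff]
    refine ⟨?_, complete P hP hmax⟩
    unfold rng
    rw [List.mem_range]
    exact Nat.lt_succ_of_le (path_length_le hP)
  · intro hpos
    have h : best H M x y = 0 ∨ best H M x y ∈ (rng M).filter (fun s =>
        decide ((M.length, y, s) ∈ states H M x (M.length + 2))) := foldl_max_mem _ 0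
    rcases h with h | h
    · omega
    · rw [List.mem_filter, decide_eq_true_iff] at h
      exact sound hM hH hx hy _ h.2

end Pool.Agent.Helper944_LP
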